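import Pool.Agent.H188.UD.Defs

set_option autoImplicit false

namespace Pool.Agent.H188.UD

namespace ApH139

lemma F_succ (K x : ℕ) : F (K + 1) x = (if x % 2 = 0 then 1 else 0) + 3 * F K (x / 3) := by
  unfold F
  rw [Finset.sum_range_succ' _ (K + 1), add_comm, Finset.mul_sum]
  simp only [pow_zero, Nat.div_one]
  congr 1
  refine Finset.sum_congr rfl fun l _ => ?_
  rw [Nat.div_div_eq_div_mul, ← pow_succ' 3 l]
  split_ifs
  · rw [pow_succ]
    ring
  · ring

lemma F_zero (x : ℕ) : F 0 x = if x % 2 = 0 then 1 else 0 := by
  unfold F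
  rw [zero_add, Finset.sum_range_one, pow_zero, Nat.div_one, pow_zero]

lemma jump (K : ℕ) : ∀ y : ℕ, (y % 2 = 0 → F K (y + 1) - F K y ≤ -1) ∧
    (y % 2 = 1 → 1 ≤ F K (y + 1) - F K y) := by
  induction K with
  | zero =>
    intro y
    rw [F_zero, F_zero]
    constructor <;> intro hy <;> split_ifs <;> omega
  | succ K ih =>
    intro y
    obtain ⟨h1, h2⟩ := ih (y / 3)
    rw [F_succ, F_succ]
    by_cases hr : (y + 1) / 3 = y / 3
    · rw [hr]
      constructor <;> intro hy <;> split_ifs <;> omega
    · have hr' : (y + 1) / 3 = y / 3 + 1 := by omega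
      rw [hr']
      constructor
      · intro hy
        have h3 := h1 (by omega)
        split_ifs <;> omega
      · intro hy
        have h3 := h2 (by omega)
        split_ifs <;> omega

lemma main (K : ℕ) : ∀ a b c : ℕ, a < b → b < c → c < 3 ^ K → a + c ≤ 2 * b + 1 →
    2 * b ≤ a + c + 1 → ((c : ℤ) - a + 5 ≤ 4 * (F K a + F K c - 2 * F K b)) ∨
      ((c : ℤ) - a + 5 ≤ -(4 * (F K a + F K c - 2 * F K b))) := by
  induction K with
  | zero =>
    intro a b c h1 h2 h3 h4 h5
    rw [pow_zero] at h3
    omega
  | succ K ih =>
    intro a b c h1 h2 h3 h4 h5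
    have hc' : c / 3 < 3 ^ K := by
      apply Nat.div_lt_of_lt_mul
      rw [← pow_succ']
      exact h3
    rw [F_succ, F_succ, F_succ]
    by_cases hab : a / 3 < b / 3
    · by_cases hbc : b / 3 < c / 3
      · rcases ih (a / 3) (b / 3) (c / 3) hab hbc hc' (by omega) (by omega) with h | h
        · left
          split_ifs <;> omega
        · right
          split_ifs <;> omega
      · have e1 : c / 3 = b / 3 := by omega
        have e2 : b / 3 = a / 3 + 1 := by omega
        rw [e1, e2]
        obtain ⟨j1, j2⟩ := jump K (a / 3)
        rcases Nat.mod_two_eq_zero_or_one (a / 3) with hp | hp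
        · have h := j1 hp
          left
          split_ifs <;> omega
        · have h := j2 hp
          right
          split_ifs <;> omega
    · have e1 : b / 3 = a / 3 := by omega
      by_cases hbc : b / 3 < c / 3
      · have e2 : c / 3 = a / 3 + 1 := by omega
        rw [e1, e2]
        obtain ⟨j1, j2⟩ := jump K (a / 3)
        rcases Nat.mod_two_eq_zero_or_one (a / 3) with hp | hp
        · have h := j1 hp
          right
          split_ifs <;> omega
        · have h := j2 hp
          left
          split_ifs <;> omega
      · have e2 : c / 3 = a / 3 := by omega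
        rw [e1, e2]
        rcases Nat.mod_two_eq_zero_or_one (a / 3) with hp | hp
        · left
          split_ifs <;> omega
        · right
          split_ifs <;> omega

end ApH139

theorem t_ap : S_ap := by
  intro K a b c h1 h2 h3 h4 h5
  rcases ApH139.main K a b c h1 h2 h3 h4 h5 with h | h
  · have := le_abs_self (F K a + F K c - 2 * F K b)
    omega
  · have := neg_le_abs (F K a + F K c - 2 * F K b)
    omega

end Pool.Agent.H188.UD
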