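import Pool.Agent.H188.UD.Defs

/-! # The upper bound, assembly -/

set_option autoImplicit false

namespace Pool.Agent.H188.UD

open Pool.Agent.H188.NL (occ)
open Pool.Agent.H188.UB (P ev ev_lip ev_big S_wrd S_trig S_floor)

theorem qsum (n : ℕ) (Q : Finset (ℤ × ℤ)) (hQ : Q ⊆ P n) (φ : ℝ → ℝ) (B : ℝ)
    (hφ : ∀ u : ℕ, 1 ≤ u → 0 ≤ φ u)
    (hB : ∀ u ∈ Finset.Icc 1 n, ((Q.filter (fun z => z.2.toNat = u)).card : ℝ) ≤ B) :
    ∑ z ∈ Q, φ (z.2 : ℝ) ≤ ∑ u ∈ Finset.Icc 1 n, B * φ (u : ℝ) := by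
  have hmem : ∀ z ∈ Q, z.2.toNat ∈ Finset.Icc 1 n := by
    intro z hz
    have h := hQ hz
    unfold P at h
    rw [Finset.mem_filter, Finset.mem_product, Finset.mem_Icc, Finset.mem_Icc] at h
    rw [Finset.mem_Icc]
    omega
  rw [← Finset.sum_fiberwise_of_maps_to hmem]
  refine Finset.sum_le_sum fun u hu => ?_
  have h1 : ∑ z ∈ Q.filter (fun z => z.2.toNat = u), φ (z.2 : ℝ) =
      ∑ _z ∈ Q.filter (fun z => z.2.toNat = u), φ (u : ℝ) := by
    refine Finset.sum_congr rfl fun z hz => ?_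
    rw [Finset.mem_filter] at hz
    have h2 := hmem z hz.1
    rw [Finset.mem_Icc] at h2
    have h3 : z.2 = (u : ℤ) := by omega
    rw [h3]
    push_cast
    rfl
  rw [h1, Finset.sum_const, nsmul_eq_mul]
  exact mul_le_mul_of_nonneg_right (hB u hu) (hφ u (Finset.mem_Icc.1 hu).1)

theorem small_card (n N : ℕ) :
    (((P n).filter (fun z => z.2 < (N : ℤ))).card : ℝ) ≤ (n : ℝ) * N := by
  have h1 : (P n).filter (fun z => z.2 < (N : ℤ)) ⊆
      (Finset.Icc (1 : ℤ) n) ×ˢ (Finset.Icc (1 : ℤ) N) := by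
    intro z hz
    unfold P at hz
    rw [Finset.mem_filter, Finset.mem_filter, Finset.mem_product, Finset.mem_Icc,
      Finset.mem_Icc] at hz
    rw [Finset.mem_product, Finset.mem_Icc, Finset.mem_Icc]
    omega
  have h2 := Finset.card_le_card h1
  rw [Finset.card_product, Int.card_Icc, Int.card_Icc] at h2
  have h3 : ((n : ℤ) + 1 - 1).toNat = n := by omega
  have h4 : ((N : ℤ) + 1 - 1).toNat = N := by omega
  rw [h3, h4] at h2
  exact_mod_cast h2

theorem upper (hwrd : S_wrd) (havg : S_avg2) (htrig : S_trig) (hfloor : S_floor) (hdet : S_det)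
    (hevs : S_evs) (hfin : S_fin) (n : ℕ) (hn : 16 ≤ n) :
    ∃ w : List Bool, w.length = n ∧ ((occ w).ncard : ℝ) ≤
      10 ^ 10 * n * Real.log n * (Real.log (Real.log n)) ^ 2 := by
  classical
  obtain ⟨q, K, hq, hqK, hK3, hnK, hKn, hlog, hsum⟩ := hfin n hn
  obtain ⟨f, hf1, hf2⟩ := hdet q K hq hqK hK3
  obtain ⟨J, hJ⟩ : ∃ J, J = Nat.log 2 n + 1 := ⟨_, rfl⟩
  have hnpos : (0 : ℝ) < n := by
    have : 0 < n := by omega
    exact_mod_cast this
  have hqpos : (0 : ℝ) < q := by exact_mod_cast hq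
  have h3pos : (0 : ℝ) < (3 : ℝ) ^ q := by positivity
  obtain ⟨m0, hm0⟩ : ∃ m0 : ℝ, m0 = 1 / (32 * q * 3 ^ q) := ⟨_, rfl⟩
  have hm0pos : 0 < m0 := by rw [hm0]; positivity
  obtain ⟨κ, hκ⟩ : ∃ κ : ℝ, κ = m0 / (3200 * n) := ⟨_, rfl⟩
  have hκ0 : 0 < κ := by rw [hκ]; positivity
  have hκn : n * κ = m0 / 3200 := by rw [hκ]; field_simp
  have hm1 : m0 * (32 * q * 3 ^ q) = 1 := by rw [hm0]; field_simp
  have hJm : (J : ℝ) * m0 ≤ 1 := by
    have h1 : (J : ℝ) ≤ 6 * 3 ^ q := by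
      rw [hJ]
      exact_mod_cast hlog
    have h2 : (1 : ℝ) ≤ q := by exact_mod_cast hq
    have h3 : (J : ℝ) * m0 ≤ 6 * 3 ^ q * m0 := mul_le_mul_of_nonneg_right h1 hm0pos.le
    have h4 : m0 * (32 * 1 * 3 ^ q) ≤ m0 * (32 * q * 3 ^ q) := by gcongr
    nlinarith [mul_pos hm0pos h3pos]
  obtain ⟨fz, hfz⟩ : ∃ fz : ℤ → ℝ, fz = fun x => f x.toNat := ⟨_, rfl⟩
  have hfzl : ∀ x, |fz (x + 1) - fz x| ≤ 1 / 4 := by
    intro x
    rw [hfz]
    rcases lt_or_ge x 0 with h | h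
    · have e1 : (x + 1).toNat = 0 := by omega
      have e2 : x.toNat = 0 := by omega
      simp only [e1, e2, sub_self, abs_zero]
      norm_num
    · have e1 : (x + 1).toNat = x.toNat + 1 := by omega
      simp only [e1]
      exact hf1 x.toNat
  obtain ⟨cc, hcc⟩ : ∃ cc : ℤ × ℤ → ℝ, cc = fun z =>
      fz (z.1 + z.2) + fz (z.1 - z.2) - 2 * fz z.1 := ⟨_, rfl⟩
  obtain ⟨N, hN⟩ : ∃ N : ℕ, N = 1024 * q * 3 ^ q := ⟨_, rfl⟩
  obtain ⟨Q, hQ⟩ : ∃ Q, Q = (P n).filter (fun z => (N : ℤ) ≤ z.2 ∧ |cc z| < (z.2 : ℝ) * m0 / 8) :=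
    ⟨_, rfl⟩
  have hQP : Q ⊆ P n := by rw [hQ]; exact Finset.filter_subset _ _
  obtain ⟨t, ht⟩ := havg J n Q
    (fun z i => κ * (ev ((z.1 : ℝ) + z.2) i.1 i.2 + ev ((z.1 : ℝ) - z.2) i.1 i.2 -
      2 * ev (z.1 : ℝ) i.1 i.2)) cc
    (fun z => κ * (2 * (z.2 : ℝ))) (by omega) (by
      intro z hz
      have hz := hQP hz
      unfold P at hz
      rw [Finset.mem_filter, Finset.mem_product, Finset.mem_Icc, Finset.mem_Icc] at hz
      obtain ⟨⟨⟨_, _⟩, ⟨z1, z2⟩⟩, _, _⟩ := hz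
      have z1' : (1 : ℝ) ≤ z.2 := by exact_mod_cast z1
      refine ⟨by positivity, ?_⟩
      obtain ⟨u, hu⟩ : ∃ u : ℕ, z.2 = u := ⟨z.2.toNat, by omega⟩
      have hu1 : 1 ≤ u := by omega
      have hun : u ≤ n := by omega
      have hlog : Nat.log 2 u < J := by
        have := Nat.log_mono_right (b := 2) hun
        omega
      have k1 : 2 ^ Nat.log 2 u ≤ u := Nat.pow_log_le_self 2 (by omega)
      have k2 : u < 2 ^ (Nat.log 2 u + 1) := Nat.lt_pow_succ_log_self (by norm_num) u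
      have k1' : (2 : ℝ) ^ Nat.log 2 u ≤ (z.2 : ℝ) := by
        rw [hu]
        push_cast
        exact_mod_cast k1
      have k2' : (z.2 : ℝ) ≤ (2 : ℝ) ^ (Nat.log 2 u + 1) := by
        rw [hu]
        push_cast
        exact_mod_cast k2.le
      obtain ⟨c, hc⟩ := ev_big htrig (z.1 : ℝ) (z.2 : ℝ) (Nat.log 2 u) k1' k2'
      refine ⟨(⟨Nat.log 2 u, hlog⟩, c), ?_⟩
      rw [abs_mul, abs_of_pos hκ0]
      exact mul_le_mul_of_nonneg_left hc hκ0.le)
  have hL : ∀ x : ℤ, |(∑ i : Fin J × Bool, ((t i : ℕ) : ℝ) * (κ * ev (((x + 1 : ℤ)) : ℝ) i.1 i.2)) -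
      ∑ i : Fin J × Bool, ((t i : ℕ) : ℝ) * (κ * ev (x : ℝ) i.1 i.2)| ≤ 1 / 4 := by
    intro x
    rw [← Finset.sum_sub_distrib]
    refine (Finset.abs_sum_le_sum_abs _ _).trans ?_
    have hterm : ∀ i ∈ (Finset.univ : Finset (Fin J × Bool)),
        |((t i : ℕ) : ℝ) * (κ * ev (((x + 1 : ℤ)) : ℝ) i.1 i.2) -
          ((t i : ℕ) : ℝ) * (κ * ev (x : ℝ) i.1 i.2)| ≤ n * (κ * (13 / 2)) := by
      intro i _
      have e : ((t i : ℕ) : ℝ) * (κ * ev (((x + 1 : ℤ)) : ℝ) i.1 i.2) -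
          ((t i : ℕ) : ℝ) * (κ * ev (x : ℝ) i.1 i.2) =
          ((t i : ℕ) : ℝ) * (κ * (ev ((x : ℝ) + 1) i.1 i.2 - ev (x : ℝ) i.1 i.2)) := by
        push_cast
        ring
      rw [e, abs_mul, abs_mul, abs_of_pos hκ0, Nat.abs_cast]
      have h1 := ev_lip htrig (x : ℝ) i.1 i.2
      have h2 : ((t i : ℕ) : ℝ) ≤ n := by exact_mod_cast (t i).2.le
      have h3 : κ * |ev ((x : ℝ) + 1) i.1 i.2 - ev (x : ℝ) i.1 i.2| ≤ κ * (13 / 2) :=
        mul_le_mul_of_nonneg_left h1 hκ0.le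
      exact mul_le_mul h2 h3 (by positivity) (by positivity)
    refine (Finset.sum_le_sum hterm).trans ?_
    rw [Finset.sum_const, Finset.card_univ, Fintype.card_prod, Fintype.card_fin, Fintype.card_bool,
      nsmul_eq_mul]
    push_cast
    have : (J : ℝ) * 2 * (n * (κ * (13 / 2))) = 13 * (J * (n * κ)) := by ring
    rw [this, hκn]
    have : 13 * ((J : ℝ) * (m0 / 3200)) = 13 / 3200 * (J * m0) := by ring
    rw [this]
    linarith
  obtain ⟨Fl, hF1, hF2⟩ := hfloor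
    (fun x : ℤ => ∑ i : Fin J × Bool, ((t i : ℕ) : ℝ) * (κ * ev (x : ℝ) i.1 i.2) + fz x) (by
      intro x
      have h1 := hL x
      have h2 := hfzl x
      refine le_trans (le_of_eq ?_) ((abs_add_le _ _).trans (add_le_add h1 h2)) |>.trans ?_
      · congr 1
        ring
      · norm_num)
  obtain ⟨w, hw, hocc⟩ := hwrd Fl n hF1
  refine ⟨w, hw, ?_⟩
  obtain ⟨S, hS⟩ : ∃ S : ℤ × ℤ → ℝ, S = fun z => ∑ i : Fin J × Bool, ((t i : ℕ) : ℝ) * (κ *
        (ev ((z.1 : ℝ) + z.2) i.1 i.2 + ev ((z.1 : ℝ) - z.2) i.1 i.2 -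
      2 * ev (z.1 : ℝ) i.1 i.2)) := ⟨_, rfl⟩
  have hSb : ∀ z : ℤ × ℤ, 1 ≤ z.2 → |S z| ≤ m0 * z.2 / 16 := by
    intro z hz
    have hz' : (0 : ℝ) < z.2 := by exact_mod_cast (by omega : (0 : ℤ) < z.2)
    rw [hS]
    refine (Finset.abs_sum_le_sum_abs _ _).trans ?_
    have h1 := hevs J (z.1 : ℝ) (z.2 : ℝ) hz'
    have h2 : ∀ i ∈ (Finset.univ : Finset (Fin J × Bool)), |((t i : ℕ) : ℝ) * (κ *
        (ev ((z.1 : ℝ) + z.2) i.1 i.2 + ev ((z.1 : ℝ) - z.2) i.1 i.2 -
      2 * ev (z.1 : ℝ) i.1 i.2))| ≤ n * κ * |ev ((z.1 : ℝ) + z.2) i.1 i.2 +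
        ev ((z.1 : ℝ) - z.2) i.1 i.2 - 2 * ev (z.1 : ℝ) i.1 i.2| := by
      intro i _
      rw [abs_mul, abs_mul, abs_of_pos hκ0, Nat.abs_cast, mul_assoc]
      have h2 : ((t i : ℕ) : ℝ) ≤ n := by exact_mod_cast (t i).2.le
      exact mul_le_mul_of_nonneg_right h2 (by positivity)
    refine (Finset.sum_le_sum h2).trans ?_
    rw [← Finset.mul_sum]
    refine (mul_le_mul_of_nonneg_left h1 (by positivity)).trans (le_of_eq ?_)
    rw [hκn]
    ring
  have h1 : ((P n).filter (fun z => Fl (z.1 + z.2) + Fl (z.1 - z.2) = 2 * Fl z.1)) ⊆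
      ((P n).filter (fun z => z.2 < (N : ℤ))) ∪ (Q.filter (fun z => |S z + cc z| < 2)) := by
    intro z hz
    rw [Finset.mem_filter] at hz
    have h2 := hF2 z.1 z.2 hz.2
    have h3 : |S z + cc z| < 2 := by
      refine lt_of_le_of_lt (le_of_eq ?_) h2
      rw [hS, hcc]
      have e : ∑ i : Fin J × Bool, ((t i : ℕ) : ℝ) * (κ *
        (ev ((z.1 : ℝ) + z.2) i.1 i.2 + ev ((z.1 : ℝ) - z.2) i.1 i.2 -
          2 * ev (z.1 : ℝ) i.1 i.2)) =
          ∑ i : Fin J × Bool, ((t i : ℕ) : ℝ) * (κ * ev (((z.1 + z.2 : ℤ)) : ℝ) i.1 i.2) +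
          ∑ i : Fin J × Bool, ((t i : ℕ) : ℝ) * (κ * ev (((z.1 - z.2 : ℤ)) : ℝ) i.1 i.2) -
          2 * ∑ i : Fin J × Bool, ((t i : ℕ) : ℝ) * (κ * ev ((z.1 : ℤ) : ℝ) i.1 i.2) := by
        rw [Finset.mul_sum, ← Finset.sum_add_distrib, ← Finset.sum_sub_distrib]
        refine Finset.sum_congr rfl fun i _ => ?_
        push_cast
        ring
      simp only [e]
      congr 1
      ring
    rw [Finset.mem_union]
    by_cases hzN : z.2 < (N : ℤ)
    · left
      rw [Finset.mem_filter]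
      exact ⟨hz.1, hzN⟩
    · right
      rw [not_lt] at hzN
      rw [Finset.mem_filter, hQ, Finset.mem_filter]
      refine ⟨⟨hz.1, hzN, ?_⟩, h3⟩
      by_contra hc
      rw [not_lt] at hc
      have hz1 : 1 ≤ z.2 := by
        have h4 := hz.1
        unfold P at h4
        rw [Finset.mem_filter, Finset.mem_product, Finset.mem_Icc, Finset.mem_Icc] at h4
        exact h4.1.2.1
      have h5 := hSb z hz1
      have h6 : (1024 * q * 3 ^ q : ℝ) ≤ z.2 := by
        have h7 : ((N : ℤ) : ℝ) ≤ z.2 := by exact_mod_cast hzN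
        rw [hN] at h7
        push_cast at h7
        exact h7
      have h8 : 2 ≤ m0 * z.2 / 16 := by
        have h9 : m0 * (1024 * q * 3 ^ q) ≤ m0 * z.2 := mul_le_mul_of_nonneg_left h6 hm0pos.le
        have h10 : m0 * (1024 * q * 3 ^ q) = 32 * (m0 * (32 * q * 3 ^ q)) := by ring
        rw [h10, hm1] at h9
        linarith
      have h11 : |cc z| ≤ |S z + cc z| + |S z| := by
        have := abs_sub_abs_le_abs_sub (cc z) (-S z)
        have e1 : cc z - -S z = S z + cc z := by ring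
        rw [e1, abs_neg] at this
        linarith
      have h12 : (z.2 : ℝ) * m0 / 8 = 2 * (m0 * z.2 / 16) := by ring
      linarith
  have h2 : ((occ w).ncard : ℝ) ≤ (n : ℝ) * N + ((Q.filter (fun z => |S z + cc z| < 2)).card : ℝ) := by
    have h3 := (Finset.card_le_card h1).trans (Finset.card_union_le _ _)
    have h4 : ((occ w).ncard : ℝ) ≤ (((P n).filter (fun z => z.2 < (N : ℤ))).card : ℝ) +
        ((Q.filter (fun z => |S z + cc z| < 2)).card : ℝ) := by
      exact_mod_cast hocc.trans h3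
    have h5 := small_card n N
    linarith
  have h3 : ((Q.filter (fun z => |S z + cc z| < 2)).card : ℝ) ≤
      ∑ z ∈ Q, (4 / (κ * (2 * (z.2 : ℝ))) + 1) / n := by
    rw [hS]
    exact ht
  have h4 : ∑ z ∈ Q, (4 / (κ * (2 * (z.2 : ℝ))) + 1) / n ≤
      ∑ u ∈ Finset.Icc 1 n, (500 * q * (3 : ℝ) ^ (K - q)) *
        ((fun y : ℝ => (4 / (κ * (2 * y)) + 1) / n) (u : ℝ)) := by
    refine qsum n Q hQP (fun y : ℝ => (4 / (κ * (2 * y)) + 1) / n) _ ?_ ?_
    · intro u _
      positivity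
    · intro u hu
      rw [Finset.mem_Icc] at hu
      rcases lt_or_ge u N with huN | huN
      · have e : Q.filter (fun z => z.2.toNat = u) = ∅ := by
          rw [Finset.filter_eq_empty_iff]
          intro z hz
          rw [hQ, Finset.mem_filter] at hz
          omega
        rw [e]
        simp only [Finset.card_empty, Nat.cast_zero]
        positivity
      · have hu8 : 8 * 3 ^ q ≤ u := by
          refine le_trans ?_ huN
          rw [hN]
          have : 8 * 3 ^ q ≤ 1024 * q * 3 ^ q := by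
            apply Nat.mul_le_mul_right
            omega
          exact this
        refine le_trans ?_ (hf2 u hu8)
        have hcard : (Q.filter (fun z => z.2.toNat = u)).card ≤
            ((Finset.range (3 ^ K)).filter (fun x => x + 2 * u < 3 ^ K ∧
              |f x + f (x + 2 * u) - 2 * f (x + u)| <
                (u : ℝ) / (8 * (32 * q * 3 ^ q)))).card := by
          apply Finset.card_le_card_of_injOn (fun z => (z.1 - z.2).toNat)
          · intro z hz
            rw [Finset.mem_coe, Finset.mem_filter, hQ, Finset.mem_filter] at hz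
            obtain ⟨⟨hzP, hzN, hzc⟩, hzu⟩ := hz
            unfold P at hzP
            rw [Finset.mem_filter, Finset.mem_product, Finset.mem_Icc, Finset.mem_Icc] at hzP
            obtain ⟨⟨⟨_, _⟩, ⟨_, _⟩⟩, hzl, hzr⟩ := hzP
            obtain ⟨x, hx⟩ : ∃ x : ℕ, z.1 - z.2 = x := ⟨(z.1 - z.2).toNat, by omega⟩
            have hz2 : z.2 = (u : ℤ) := by omega
            have hx2 : x + 2 * u < 3 ^ K := by omega
            rw [Finset.mem_coe, Finset.mem_filter, Finset.mem_range]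
            have e0 : (z.1 - z.2).toNat = x := by omega
            have e1 : (z.1 + z.2).toNat = x + 2 * u := by omega
            have e2 : z.1.toNat = x + u := by omega
            simp only [e0]
            refine ⟨by omega, hx2, ?_⟩
            rw [hcc, hfz] at hzc
            simp only [e0, e1, e2] at hzc
            have e3 : f x + f (x + 2 * u) - 2 * f (x + u) =
                f (x + 2 * u) + f x - 2 * f (x + u) := by ring
            rw [e3]
            refine lt_of_lt_of_le hzc (le_of_eq ?_)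
            rw [hm0, hz2]
            push_cast
            field_simp
          · intro z hz z' hz' he
            rw [Finset.mem_coe, Finset.mem_filter] at hz hz'
            have h5 := hQP hz.1
            have h6 := hQP hz'.1
            unfold P at h5 h6
            rw [Finset.mem_filter, Finset.mem_product, Finset.mem_Icc, Finset.mem_Icc] at h5 h6
            simp only at he
            apply Prod.ext <;> omega
        exact_mod_cast hcard
  refine h2.trans ((add_le_add le_rfl (h3.trans h4)).trans ?_)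
  refine le_trans (le_of_eq ?_) hsum
  congr 1
  · rw [hN]
    push_cast
    ring
  · refine Finset.sum_congr rfl fun u hu => ?_
    have hu1 : (0 : ℝ) < u := by
      have := (Finset.mem_Icc.1 hu).1
      exact_mod_cast (by omega : 0 < u)
    congr 1
    rw [hκ, hm0]
    field_simp
    ring

end Pool.Agent.H188.UD
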