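import Pool.Agent.H188.UD.Defs
import Pool.Agent.H188.UB.Avg

/-! # W8: averaging with a constant term -/

set_option autoImplicit false

namespace Pool.Agent.H188.UD

open Pool.Agent.H188.UB.AvgAux (cnt sw sw_inv)

open Classical in
/-- averaging over one coordinate -/
theorem one {I : Type} [Fintype I] [DecidableEq I] (M : ℕ) (i : I) (b : I → ℝ) (c l : ℝ) (hl : 0 < l)
    (hb : l ≤ |b i|) :
    ((Finset.univ.filter (fun t : I → Fin M => |∑ j, ((t j : ℕ) : ℝ) * b j + c| < 2)).card : ℝ) * M ≤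
      (4 / l + 1) * (Fintype.card (I → Fin M) : ℝ) := by
  obtain ⟨f, hf⟩ : ∃ f : (I → Fin M) → ℝ, f = fun t =>
      if |∑ j, ((t j : ℕ) : ℝ) * b j + c| < 2 then 1 else 0 := ⟨_, rfl⟩
  have h1 : ((Finset.univ.filter (fun t : I → Fin M =>
      |∑ j, ((t j : ℕ) : ℝ) * b j + c| < 2)).card : ℝ) = ∑ t, f t := by
    rw [Finset.card_filter, hf]
    push_cast
    rfl
  have h2 : (∑ t, f t) * (M : ℝ) = ∑ p : (I → Fin M) × Fin M, f p.1 := by
    rw [Fintype.sum_prod_type, Finset.sum_mul]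
    refine Finset.sum_congr rfl fun t _ => ?_
    show f t * (M : ℝ) = ∑ _y : Fin M, f t
    rw [Finset.sum_const, Finset.card_univ, Fintype.card_fin, nsmul_eq_mul]
    ring
  have h3 : ∑ p : (I → Fin M) × Fin M, f p.1 = ∑ p : (I → Fin M) × Fin M, f (sw i p).1 :=
    (Equiv.sum_comp ((sw_inv (A := Fin M) i).toPerm) (fun p : (I → Fin M) × Fin M => f p.1)).symm
  have hb0 : 0 < |b i| := lt_of_lt_of_le hl hb
  have h4 : ∀ t : I → Fin M, ∑ m : Fin M, f (Function.update t i m) ≤ 4 / l + 1 := by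
    intro t
    have h5 : ∀ m : Fin M, ∑ j, (((Function.update t i m) j : ℕ) : ℝ) * b j + c =
        ((m : ℕ) : ℝ) * b i + (∑ j ∈ Finset.univ.erase i, ((t j : ℕ) : ℝ) * b j + c) := by
      intro m
      rw [← Finset.add_sum_erase _ _ (Finset.mem_univ i), Function.update_self, add_assoc]
      congr 2
      refine Finset.sum_congr rfl fun j hj => ?_
      rw [Function.update_of_ne (Finset.ne_of_mem_erase hj)]
    have h6 := cnt M (b i) (∑ j ∈ Finset.univ.erase i, ((t j : ℕ) : ℝ) * b j + c) hb0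
    have h7 : ∑ m : Fin M, f (Function.update t i m) =
        ((Finset.univ.filter (fun m : Fin M => |((m : ℕ) : ℝ) * b i +
          (∑ j ∈ Finset.univ.erase i, ((t j : ℕ) : ℝ) * b j + c)| < 2)).card : ℝ) := by
      rw [Finset.card_filter, hf]
      push_cast
      refine Finset.sum_congr rfl fun m _ => ?_
      rw [h5 m]
    rw [h7]
    refine h6.trans ?_
    have : 4 / |b i| ≤ 4 / l := div_le_div_of_nonneg_left (by norm_num) hl hb
    linarith
  rw [h1, h2, h3, Fintype.sum_prod_type]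
  have h8 : ∑ t : I → Fin M, ∑ m : Fin M, f (sw i (t, m)).1 ≤ ∑ _t : I → Fin M, (4 / l + 1) :=
    Finset.sum_le_sum fun t _ => h4 t
  refine h8.trans (le_of_eq ?_)
  rw [Finset.sum_const, Finset.card_univ, nsmul_eq_mul]
  ring

open Classical in
theorem t_avg2 : S_avg2 := by
  intro J M Q b c lam hM hQ
  have hM0 : (0 : ℝ) < M := by exact_mod_cast hM
  have hne : Nonempty (Fin J × Bool → Fin M) := ⟨fun _ => ⟨0, hM⟩⟩
  have hpos : (0 : ℝ) < (Fintype.card (Fin J × Bool → Fin M) : ℝ) := by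
    exact_mod_cast Fintype.card_pos
  have h1 : ∀ z ∈ Q, ((Finset.univ.filter (fun t : Fin J × Bool → Fin M =>
      |∑ i, ((t i : ℕ) : ℝ) * b z i + c z| < 2)).card : ℝ) ≤
      (4 / lam z + 1) / M * (Fintype.card (Fin J × Bool → Fin M) : ℝ) := by
    intro z hz
    obtain ⟨hl, i, hi⟩ := hQ z hz
    have h2 := one M i (b z) (c z) (lam z) hl hi
    rw [div_mul_eq_mul_div, le_div_iff₀ hM0]
    exact h2
  have h3 : ∑ t : Fin J × Bool → Fin M,
      ((Q.filter (fun z => |∑ i, ((t i : ℕ) : ℝ) * b z i + c z| < 2)).card : ℝ) ≤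
      ∑ _t : Fin J × Bool → Fin M, ∑ z ∈ Q, (4 / lam z + 1) / M := by
    have h4 : ∑ t : Fin J × Bool → Fin M,
        ((Q.filter (fun z => |∑ i, ((t i : ℕ) : ℝ) * b z i + c z| < 2)).card : ℝ) =
        ∑ z ∈ Q, ((Finset.univ.filter (fun t : Fin J × Bool → Fin M =>
          |∑ i, ((t i : ℕ) : ℝ) * b z i + c z| < 2)).card : ℝ) := by
      simp only [Finset.card_filter, Nat.cast_sum]
      exact Finset.sum_comm
    rw [h4, Finset.sum_const, Finset.card_univ, nsmul_eq_mul, Finset.mul_sum]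
    refine Finset.sum_le_sum fun z hz => ?_
    rw [mul_comm]
    exact h1 z hz
  obtain ⟨t, -, ht⟩ := Finset.exists_le_of_sum_le (Finset.univ_nonempty) h3
  exact ⟨t, ht⟩

end Pool.Agent.H188.UD
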