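import Pool.Agent.H188.UD.Defs

/-! Proof of W5 (helper528). -/

set_option autoImplicit false

namespace Pool.Agent.H188.UD

open Finset

namespace TBad

/-- the square wave of level `l` -/
def sq (l x : ℕ) : ℤ := if (x / 3 ^ l) % 2 = 0 then (3 : ℤ) ^ l else 0

/-- second difference -/
def D (h : ℕ → ℤ) (u x : ℕ) : ℤ := h x + h (x + 2 * u) - 2 * h (x + u)

theorem sq_bd (l u x : ℕ) : |D (sq l) u x| ≤ 4 * 3 ^ l := by
  have h : ∀ y, 0 ≤ sq l y ∧ sq l y ≤ 3 ^ l := by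
    intro y
    unfold sq
    split_ifs
    · exact ⟨by positivity, le_rfl⟩
    · exact ⟨le_rfl, by positivity⟩
  have h1 := h x
  have h2 := h (x + 2 * u)
  have h3 := h (x + u)
  unfold D
  rw [abs_le]
  constructor <;> linarith [h1.1, h1.2, h2.1, h2.2, h3.1, h3.2]

theorem err_bd (q l u x : ℕ) (hql : q ≤ l) : |D (err q l) u x| ≤ 4 * 3 ^ l := by
  have h : ∀ y, |err q l y| ≤ 3 ^ l := by
    intro y
    have h3 : (0 : ℤ) < 3 ^ l := by positivity
    unfold err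
    by_cases hc : y % 3 ^ l < 3 ^ (l - q)
    · have h1 : (3 : ℤ) ^ q * ((y % 3 ^ l : ℕ) : ℤ) ≤ 3 ^ l := by
        have h4 : 3 ^ q * (y % 3 ^ l) ≤ 3 ^ l := by
          calc 3 ^ q * (y % 3 ^ l) ≤ 3 ^ q * 3 ^ (l - q) := Nat.mul_le_mul_left _ hc.le
            _ = 3 ^ l := by rw [← pow_add, Nat.add_sub_cancel' hql]
        exact_mod_cast h4
      have h2 : (0 : ℤ) ≤ (3 : ℤ) ^ q * ((y % 3 ^ l : ℕ) : ℤ) := by positivity
      rw [if_pos hc]
      split_ifs
      · rw [abs_le]; constructor <;> linarith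
      · rw [abs_le]; constructor <;> linarith
    · rw [if_neg hc, abs_zero]
      exact h3.le
  have h1 := abs_le.1 (h x)
  have h2 := abs_le.1 (h (x + 2 * u))
  have h3 := abs_le.1 (h (x + u))
  unfold D
  rw [abs_le]
  constructor <;> linarith [h1.1, h1.2, h2.1, h2.2, h3.1, h3.2]

theorem geo (m : ℕ) : 2 * ∑ i ∈ range m, (3 : ℤ) ^ i ≤ 3 ^ m := by
  have : 2 * ∑ i ∈ range m, (3 : ℤ) ^ i + 1 = 3 ^ m := by
    induction m with
    | zero => simp
    | succ m ih =>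
      rw [sum_range_succ, pow_succ]
      linarith
  linarith

theorem D_F (K u x : ℕ) : D (F K) u x = ∑ l ∈ range (K + 1), D (sq l) u x := by
  unfold D F
  rw [mul_sum, ← sum_add_distrib, ← sum_sub_distrib]
  rfl

theorem D_G (q K u x : ℕ) : D (G q K) u x =
    ∑ l ∈ Ico q (K + 1), (D (sq l) u x + D (err q l) u x) := by
  have hI : Icc q K = Ico q (K + 1) := by
    ext l
    simp only [mem_Icc, mem_Ico]
    omega
  unfold D G
  rw [hI, mul_sum, ← sum_add_distrib, ← sum_sub_distrib]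
  refine sum_congr rfl fun l _ => ?_
  unfold sq
  ring

theorem low (q K l0 u x : ℕ) (hq : q ≤ l0) (hK : l0 ≤ K)
    (h : ∀ l, l0 ≤ l → l ≤ K → D (err q l) u x = 0) :
    |D (F K) u x| ≤ |D (G q K) u x| + 2 * 3 ^ l0 := by
  have h1 : D (F K) u x = D (G q K) u x + (∑ l ∈ range q, D (sq l) u x -
      ∑ l ∈ Ico q l0, D (err q l) u x) := by
    rw [D_F, D_G, ← sum_range_add_sum_Ico (fun l => D (sq l) u x) (show q ≤ K + 1 by omega),
      sum_add_distrib, ← sum_Ico_consecutive (fun l => D (err q l) u x) hq (show l0 ≤ K + 1 by omega),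
      sum_eq_zero (s := Ico l0 (K + 1)) (f := fun l => D (err q l) u x) (fun l hl => by
        rw [mem_Ico] at hl
        exact h l hl.1 (by omega))]
    ring
  have h2 : |∑ l ∈ range q, D (sq l) u x| ≤ ∑ l ∈ range q, 4 * 3 ^ l :=
    (abs_sum_le_sum_abs _ _).trans (sum_le_sum fun l _ => sq_bd l u x)
  have h3 : |∑ l ∈ Ico q l0, D (err q l) u x| ≤ ∑ l ∈ Ico q l0, 4 * 3 ^ l :=
    (abs_sum_le_sum_abs _ _).trans (sum_le_sum fun l hl => err_bd q l u x (mem_Ico.1 hl).1)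
  have h4 : ∑ l ∈ range q, (4 * 3 ^ l : ℤ) + ∑ l ∈ Ico q l0, (4 * 3 ^ l : ℤ) =
      4 * ∑ l ∈ range l0, (3 : ℤ) ^ l := by
    rw [sum_range_add_sum_Ico (fun l => (4 * 3 ^ l : ℤ)) hq, mul_sum]
  have h5 := geo l0
  rw [h1]
  have h6 := abs_add_le (D (G q K) u x) (∑ l ∈ range q, D (sq l) u x -
      ∑ l ∈ Ico q l0, D (err q l) u x)
  have h7 := abs_sub (∑ l ∈ range q, D (sq l) u x) (∑ l ∈ Ico q l0, D (err q l) u x)
  linarith

theorem geoN (a K : ℕ) (h : a ≤ K) : 2 * ∑ l ∈ Ico a (K + 1), 3 ^ (K - l) ≤ 3 ^ (K + 1 - a) := by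
  have h1 : ∑ l ∈ Ico a (K + 1), 3 ^ (K - l) = ∑ i ∈ range (K + 1 - a), 3 ^ i := by
    rw [sum_Ico_eq_sum_range, ← sum_range_reflect]
    refine sum_congr rfl fun i hi => ?_
    rw [mem_range] at hi
    congr 1
    omega
  have h2 : ∀ m : ℕ, 2 * ∑ i ∈ range m, 3 ^ i + 1 = 3 ^ m := by
    intro m
    induction m with
    | zero => simp
    | succ m ih =>
      rw [sum_range_succ, pow_succ]
      omega
  rw [h1]
  have := h2 (K + 1 - a)
  omega

end TBad

open TBad in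
theorem t_bad (h1 : S_ap) (h4 : S_cnt) : S_bad := by
  intro q K u hq hqK hu
  -- the level l0
  obtain ⟨l0, hl0, hl0u, hul0⟩ : ∃ l0, q ≤ l0 ∧ 8 * 3 ^ l0 ≤ u ∧ u < 24 * 3 ^ l0 := by
    have hex : ∃ m, u < 8 * 3 ^ m := by
      refine ⟨u, ?_⟩
      have : u < 3 ^ u := Nat.lt_pow_self (by norm_num)
      omega
    obtain ⟨m, hm⟩ : ∃ m, m = Nat.find hex := ⟨_, rfl⟩
    have hm1 : u < 8 * 3 ^ m := by rw [hm]; exact Nat.find_spec hex
    have hqm : q < m := by
      by_contra hc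
      push Not at hc
      have : 3 ^ m ≤ 3 ^ q := Nat.pow_le_pow_right (by norm_num) hc
      omega
    have hm2 : ¬ u < 8 * 3 ^ (m - 1) := by
      rw [hm]
      exact Nat.find_min hex (by omega)
    refine ⟨m - 1, by omega, by omega, ?_⟩
    have : 3 ^ m = 3 * 3 ^ (m - 1) := by
      rw [← pow_succ']
      congr 1
      omega
    omega
  by_cases hK : l0 ≤ K
  swap
  · have hemp : ((Finset.range (3 ^ K)).filter (fun x => x + 2 * u < 3 ^ K ∧
        4 * |G q K x + G q K (x + 2 * u) - 2 * G q K (x + u)| < u)) = ∅ := by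
      refine filter_eq_empty_iff.2 ?_
      rintro x - ⟨hx, -⟩
      have : 3 ^ K ≤ 3 ^ l0 := Nat.pow_le_pow_right (by norm_num) (by omega)
      omega
    rw [hemp, card_empty]
    exact Nat.zero_le _
  obtain ⟨W, hW⟩ : ∃ W : ℕ → Finset ℕ, W = fun l => (Finset.range (3 ^ K)).filter (fun x =>
    x + 2 * u < 3 ^ K ∧ err q l x + err q l (x + 2 * u) - 2 * err q l (x + u) ≠ 0) := ⟨_, rfl⟩
  have hsub : ((Finset.range (3 ^ K)).filter (fun x => x + 2 * u < 3 ^ K ∧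
      4 * |G q K x + G q K (x + 2 * u) - 2 * G q K (x + u)| < u)) ⊆
      (Ico l0 (K + 1)).biUnion W := by
    intro x hx
    rw [mem_filter] at hx
    obtain ⟨hx1, hx2, hx3⟩ := hx
    by_contra hc
    have hz : ∀ l, l0 ≤ l → l ≤ K → D (err q l) u x = 0 := by
      intro l hl hlK
      by_contra hne
      refine hc (mem_biUnion.2 ⟨l, mem_Ico.2 ⟨hl, by omega⟩, ?_⟩)
      rw [hW]
      exact mem_filter.2 ⟨hx1, hx2, hne⟩
    have h5 := low q K l0 u x hl0 hK hz
    have hu0 : 0 < 3 ^ l0 := by positivity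
    have h6 := h1 K x (x + u) (x + 2 * u) (by omega) (by omega) hx2 (by omega) (by omega)
    have h7 : (8 * 3 ^ l0 : ℤ) ≤ u := by exact_mod_cast hl0u
    have h8 : 4 * |D (G q K) u x| < u := hx3
    have h9 : (((x + 2 * u : ℕ) : ℤ) - x + 5) ≤ 4 * |D (F K) u x| := h6
    push_cast at h9
    linarith
  have hcard : ∀ l ∈ Ico l0 (K + 1), (W l).card ≤
      (if l < l0 + q + 3 then 3 * 3 ^ (K - q) else 0) +
      (if l0 + q + 3 ≤ l then 4 * u * 3 ^ (K - l) else 0) := by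
    intro l hl
    rw [mem_Ico] at hl
    obtain ⟨c1, c2⟩ := h4 q K l u hq (by omega) (by omega) (by
      have : 0 < 3 ^ q := by positivity
      omega)
    rw [hW]
    by_cases hc : l < l0 + q + 3
    · rw [if_pos hc, if_neg (by omega), add_zero]
      exact c1
    · rw [if_neg hc, if_pos (by omega), zero_add]
      exact c2
  have hs1 : ∑ l ∈ Ico l0 (K + 1), (if l < l0 + q + 3 then 3 * 3 ^ (K - q) else 0) ≤
      (q + 3) * (3 * 3 ^ (K - q)) := by
    rw [← sum_filter]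
    calc ∑ l ∈ (Ico l0 (K + 1)).filter (fun l => l < l0 + q + 3), 3 * 3 ^ (K - q)
        ≤ ∑ l ∈ Ico l0 (l0 + (q + 3)), 3 * 3 ^ (K - q) := by
          refine sum_le_sum_of_subset fun l hl => ?_
          rw [mem_filter, mem_Ico] at hl
          rw [mem_Ico]
          omega
      _ = (q + 3) * (3 * 3 ^ (K - q)) := by
          rw [sum_const, Nat.card_Ico, smul_eq_mul, Nat.add_sub_cancel_left]
  have hs2 : ∑ l ∈ Ico l0 (K + 1), (if l0 + q + 3 ≤ l then 4 * u * 3 ^ (K - l) else 0) ≤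
      6 * 3 ^ (K - q) := by
    rw [← sum_filter]
    have hsb : (Ico l0 (K + 1)).filter (fun l => l0 + q + 3 ≤ l) = Ico (l0 + q + 3) (K + 1) := by
      ext l
      rw [mem_filter, mem_Ico, mem_Ico]
      omega
    rw [hsb]
    by_cases ha : l0 + q + 3 ≤ K
    · rw [← mul_sum]
      have g1 := geoN (l0 + q + 3) K ha
      obtain ⟨Sg, hSg⟩ : ∃ Sg, Sg = ∑ l ∈ Ico (l0 + q + 3) (K + 1), 3 ^ (K - l) := ⟨_, rfl⟩
      rw [← hSg] at g1 ⊢
      have g2 : 3 ^ l0 * 3 ^ (K + 1 - (l0 + q + 3)) = 3 ^ (K - q - 2) := by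
        rw [← pow_add]
        congr 1
        omega
      have g3 : 3 ^ (K - q) = 9 * 3 ^ (K - q - 2) := by
        have : K - q = (K - q - 2) + 2 := by omega
        rw [this, pow_add]
        simp only [Nat.add_sub_cancel]
        ring
      calc 4 * u * Sg = 2 * u * (2 * Sg) := by ring
        _ ≤ 2 * u * 3 ^ (K + 1 - (l0 + q + 3)) := Nat.mul_le_mul_left _ g1
        _ ≤ 2 * (24 * 3 ^ l0) * 3 ^ (K + 1 - (l0 + q + 3)) :=
            Nat.mul_le_mul_right _ (Nat.mul_le_mul_left _ hul0.le)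
        _ = 48 * (3 ^ l0 * 3 ^ (K + 1 - (l0 + q + 3))) := by ring
        _ = 48 * 3 ^ (K - q - 2) := by rw [g2]
        _ ≤ 6 * 3 ^ (K - q) := by rw [g3]; omega
    · rw [Ico_eq_empty (by omega), sum_empty]
      exact Nat.zero_le _
  calc _ ≤ ((Ico l0 (K + 1)).biUnion W).card := card_le_card hsub
    _ ≤ ∑ l ∈ Ico l0 (K + 1), (W l).card := card_biUnion_le
    _ ≤ ∑ l ∈ Ico l0 (K + 1), ((if l < l0 + q + 3 then 3 * 3 ^ (K - q) else 0) +
        (if l0 + q + 3 ≤ l then 4 * u * 3 ^ (K - l) else 0)) := sum_le_sum hcard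
    _ ≤ (q + 3) * (3 * 3 ^ (K - q)) + 6 * 3 ^ (K - q) := by
        rw [sum_add_distrib]
        exact add_le_add hs1 hs2
    _ = (3 * q + 15) * 3 ^ (K - q) := by ring

end Pool.Agent.H188.UD
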