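import Pool.Agent.H188.UD.Defs

/-!
# W4: the counting of the error terms
-/

set_option autoImplicit false

namespace Pool.Agent.H188.UD

open Finset

theorem cnt_corner {q l x u : ℕ} (hq : 1 ≤ q) (hl : q ≤ l)
    (h : err q l x + err q l (x + 2 * u) - 2 * err q l (x + u) ≠ 0) :
    ∃ c, x < c ∧ c ≤ x + 2 * u ∧ (c % 3 ^ l = 0 ∨ c % 3 ^ l = 3 ^ (l - q)) := by
  by_contra hc
  push Not at hc
  apply h
  have hN : 0 < 3 ^ l := by positivity
  have hmN : 3 ^ (l - q) < 3 ^ l := Nat.pow_lt_pow_right (by norm_num) (by omega)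
  have hdiv : ∀ y, x ≤ y → y ≤ x + 2 * u → y / 3 ^ l = x / 3 ^ l := by
    intro y h1 h2
    by_contra hne
    have h3 : x / 3 ^ l ≤ y / 3 ^ l := Nat.div_le_div_right h1
    have h4 : x / 3 ^ l + 1 ≤ y / 3 ^ l := by omega
    have h5 : 3 ^ l * (y / 3 ^ l) ≤ y := Nat.mul_div_le y (3 ^ l)
    have h6 : x < 3 ^ l * (x / 3 ^ l + 1) := Nat.lt_mul_div_succ x hN
    have h7 : 3 ^ l * (x / 3 ^ l + 1) ≤ 3 ^ l * (y / 3 ^ l) := Nat.mul_le_mul_left _ h4
    have h8 := (hc (3 ^ l * (y / 3 ^ l)) (lt_of_lt_of_le h6 h7) (le_trans h5 h2)).1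
    exact h8 (Nat.mul_mod_right _ _)
  have hmod : ∀ y, x ≤ y → y ≤ x + 2 * u → y = 3 ^ l * (x / 3 ^ l) + y % 3 ^ l := by
    intro y h1 h2
    rw [← hdiv y h1 h2]
    exact (Nat.div_add_mod y (3 ^ l)).symm
  have hsame : ∀ y, x ≤ y → y ≤ x + 2 * u → (y % 3 ^ l < 3 ^ (l - q) ↔ x % 3 ^ l < 3 ^ (l - q)) := by
    intro y h1 h2
    have e1 := hmod y h1 h2
    have e2 := hmod x le_rfl (by omega)
    generalize 3 ^ l * (x / 3 ^ l) = A at e1 e2 
    constructor
    · intro h3
      have : x % 3 ^ l ≤ y % 3 ^ l := by omega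
      omega
    · intro h3
      by_contra h4
      push Not at h4
      have h5 : (3 ^ l * (x / 3 ^ l) + 3 ^ (l - q)) % 3 ^ l = 3 ^ (l - q) := by
        rw [Nat.mul_add_mod, Nat.mod_eq_of_lt hmN]
      have e3 := hmod y h1 h2
      have e4 := hmod x le_rfl (by omega)
      refine (hc (3 ^ l * (x / 3 ^ l) + 3 ^ (l - q)) ?_ ?_).2 h5
      · rw [e4]
        have : (3 ^ l * (x / 3 ^ l) + x % 3 ^ l) / 3 ^ l = x / 3 ^ l := by rw [← e4]
        rw [this]
        omega
      · omega
  have e0 := hmod x le_rfl (by omega)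
  have e1 := hmod (x + u) (by omega) (by omega)
  have e2 := hmod (x + 2 * u) (by omega) le_rfl
  have hr : x % 3 ^ l + (x + 2 * u) % 3 ^ l = 2 * ((x + u) % 3 ^ l) := by
    generalize 3 ^ l * (x / 3 ^ l) = A at e0 e1 e2
    omega
  have hrz : ((x % 3 ^ l : ℕ) : ℤ) + (((x + 2 * u) % 3 ^ l : ℕ) : ℤ) =
      2 * (((x + u) % 3 ^ l : ℕ) : ℤ) := by exact_mod_cast hr
  by_cases hx : x % 3 ^ l < 3 ^ (l - q)
  · have a1 := (hsame (x + u) (by omega) (by omega)).2 hx
    have a2 := (hsame (x + 2 * u) (by omega) le_rfl).2 hx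
    unfold err
    rw [if_pos hx, if_pos a1, if_pos a2, hdiv (x + u) (by omega) (by omega),
      hdiv (x + 2 * u) (by omega) le_rfl]
    by_cases hev : (x / 3 ^ l) % 2 = 0
    · rw [if_pos hev, if_pos hev, if_pos hev]
      linear_combination ((3 : ℤ) ^ q) * hrz
    · rw [if_neg hev, if_neg hev, if_neg hev]
      linear_combination (-(3 : ℤ) ^ q) * hrz
  · have a1 := fun hh => hx ((hsame (x + u) (by omega) (by omega)).1 hh)
    have a2 := fun hh => hx ((hsame (x + 2 * u) (by omega) le_rfl).1 hh)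
    unfold err
    rw [if_neg hx, if_neg a1, if_neg a2]
    ring

theorem t_cnt : S_cnt := by
  intro q K l u hq hl hK hu
  constructor
  · have hW : ((range (3 ^ K)).filter (fun y => y % 3 ^ l < 3 ^ (l - q))).card ≤ 3 ^ (K - q) := by
      have hs : (range (3 ^ K)).filter (fun y => y % 3 ^ l < 3 ^ (l - q)) ⊆
          image (fun p : ℕ × ℕ => 3 ^ l * p.1 + p.2) (range (3 ^ (K - l)) ×ˢ range (3 ^ (l - q))) := by
        intro y hy
        rw [mem_filter, mem_range] at hy
        refine mem_image.2 ⟨(y / 3 ^ l, y % 3 ^ l), mem_product.2 ⟨mem_range.2 ?_,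
          mem_range.2 hy.2⟩, Nat.div_add_mod y (3 ^ l)⟩
        apply Nat.div_lt_of_lt_mul
        rw [← pow_add]
        have : l + (K - l) = K := by omega
        rw [this]
        exact hy.1
      refine (card_le_card hs).trans (card_image_le.trans ?_)
      rw [card_product, card_range, card_range, ← pow_add]
      exact le_of_eq (congrArg _ (by omega))
    have hi : ∀ i : ℕ, ((range (3 ^ K)).filter (fun x => x + i * u ∈
        (range (3 ^ K)).filter (fun y => y % 3 ^ l < 3 ^ (l - q)))).card ≤ 3 ^ (K - q) := by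
      intro i
      refine le_trans (card_le_card_of_injOn (fun x => x + i * u) ?_ ?_) hW
      · intro x hx
        exact (mem_filter.1 hx).2
      · intro x _ y _ hxy
        exact Nat.add_right_cancel hxy
    have hsub : (range (3 ^ K)).filter (fun x => x + 2 * u < 3 ^ K ∧
        err q l x + err q l (x + 2 * u) - 2 * err q l (x + u) ≠ 0) ⊆
        ((range (3 ^ K)).filter (fun x => x + 0 * u ∈
          (range (3 ^ K)).filter (fun y => y % 3 ^ l < 3 ^ (l - q))) ∪
        (range (3 ^ K)).filter (fun x => x + 1 * u ∈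
          (range (3 ^ K)).filter (fun y => y % 3 ^ l < 3 ^ (l - q)))) ∪
        (range (3 ^ K)).filter (fun x => x + 2 * u ∈
          (range (3 ^ K)).filter (fun y => y % 3 ^ l < 3 ^ (l - q))) := by
      intro x hx
      rw [mem_filter, mem_range] at hx
      obtain ⟨h1, h2, h3⟩ := hx
      by_contra hn
      apply h3
      rw [mem_union, mem_union, mem_filter, mem_filter, mem_filter, mem_filter, mem_filter,
        mem_filter, mem_range, mem_range, mem_range, mem_range, zero_mul, one_mul, add_zero] at hn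
      have n0 : ¬ x % 3 ^ l < 3 ^ (l - q) := fun hh => hn (Or.inl (Or.inl ⟨h1, h1, hh⟩))
      have n1 : ¬ (x + u) % 3 ^ l < 3 ^ (l - q) :=
        fun hh => hn (Or.inl (Or.inr ⟨h1, by omega, hh⟩))
      have n2 : ¬ (x + 2 * u) % 3 ^ l < 3 ^ (l - q) := fun hh => hn (Or.inr ⟨h1, h2, hh⟩)
      unfold err
      rw [if_neg n0, if_neg n1, if_neg n2]
      ring
    have h0 := hi 0
    have h1 := hi 1
    have h2 := hi 2
    have h3 := card_le_card hsub
    have h4 := card_union_le ((range (3 ^ K)).filter (fun x => x + 0 * u ∈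
          (range (3 ^ K)).filter (fun y => y % 3 ^ l < 3 ^ (l - q))) ∪
        (range (3 ^ K)).filter (fun x => x + 1 * u ∈
          (range (3 ^ K)).filter (fun y => y % 3 ^ l < 3 ^ (l - q))))
      ((range (3 ^ K)).filter (fun x => x + 2 * u ∈
          (range (3 ^ K)).filter (fun y => y % 3 ^ l < 3 ^ (l - q))))
    have h5 := card_union_le ((range (3 ^ K)).filter (fun x => x + 0 * u ∈
          (range (3 ^ K)).filter (fun y => y % 3 ^ l < 3 ^ (l - q))))
        ((range (3 ^ K)).filter (fun x => x + 1 * u ∈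
          (range (3 ^ K)).filter (fun y => y % 3 ^ l < 3 ^ (l - q))))
    calc _ ≤ _ := h3
      _ ≤ _ := h4
      _ ≤ _ := Nat.add_le_add h5 le_rfl
      _ ≤ 3 ^ (K - q) + 3 ^ (K - q) + 3 ^ (K - q) := Nat.add_le_add (Nat.add_le_add h0 h1) h2
      _ = 3 * 3 ^ (K - q) := by ring
  · have hsub : (range (3 ^ K)).filter (fun x => x + 2 * u < 3 ^ K ∧
        err q l x + err q l (x + 2 * u) - 2 * err q l (x + u) ≠ 0) ⊆
        image (fun p : (ℕ × ℕ) × ℕ => 3 ^ l * p.1.1 + p.1.2 - 1 - p.2)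
          ((range (3 ^ (K - l)) ×ˢ ({0, 3 ^ (l - q)} : Finset ℕ)) ×ˢ range (2 * u)) := by
      intro x hx
      rw [mem_filter, mem_range] at hx
      obtain ⟨h1, h2, h3⟩ := hx
      obtain ⟨c, c1, c2, c3⟩ := cnt_corner hq hl h3
      refine mem_image.2 ⟨((c / 3 ^ l, c % 3 ^ l), c - 1 - x), mem_product.2
        ⟨mem_product.2 ⟨mem_range.2 ?_, ?_⟩, mem_range.2 (by omega)⟩, ?_⟩
      · apply Nat.div_lt_of_lt_mul
        rw [← pow_add]
        have : l + (K - l) = K := by omega
        rw [this]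
        omega
      · rcases c3 with c3 | c3
        · rw [c3]; exact mem_insert_self _ _
        · rw [c3]; exact mem_insert_of_mem (mem_singleton_self _)
      · change 3 ^ l * (c / 3 ^ l) + c % 3 ^ l - 1 - (c - 1 - x) = x
        rw [Nat.div_add_mod]
        omega
    refine (card_le_card hsub).trans (card_image_le.trans ?_)
    rw [card_product, card_product, card_range, card_range]
    have h2 : ({0, 3 ^ (l - q)} : Finset ℕ).card ≤ 2 := card_le_two
    calc 3 ^ (K - l) * ({0, 3 ^ (l - q)} : Finset ℕ).card * (2 * u)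
        ≤ 3 ^ (K - l) * 2 * (2 * u) := Nat.mul_le_mul_right _ (Nat.mul_le_mul_left _ h2)
      _ = 4 * u * 3 ^ (K - l) := by ring

end Pool.Agent.H188.UD
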