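import Pool.Agent.H188.UB.Asm

/-!
# Upper bound `C n log n (log log n) ^ 2` for the number of occurrences of abelian squares
-/

set_option autoImplicit false

namespace Pool.Agent.H188.UD

open Pool.Agent.H188.UB (P ev)

/-- the jump function: level `l` is a square wave with period `2 * 3 ^ l` and height `3 ^ l` -/
def F (K x : ℕ) : ℤ := ∑ l ∈ Finset.range (K + 1), if (x / 3 ^ l) % 2 = 0 then (3 : ℤ) ^ l else 0

/-- the number of the levels `l` in `[q, K]` such that `x` is in a pulse of level `l` -/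
def dep (q K x : ℕ) : ℕ := ((Finset.Icc q K).filter (fun l => x % 3 ^ l < 3 ^ (l - q))).card

/-- the difference of the smoothed wave and the square wave of level `l` -/
def err (q l x : ℕ) : ℤ :=
  if x % 3 ^ l < 3 ^ (l - q) then
    (if (x / 3 ^ l) % 2 = 0 then (3 : ℤ) ^ q * ((x % 3 ^ l : ℕ) : ℤ) - 3 ^ l
      else 3 ^ l - (3 : ℤ) ^ q * ((x % 3 ^ l : ℕ) : ℤ)) else 0

/-- the smoothed jump function, levels `q, ..., K` -/
def G (q K x : ℕ) : ℤ :=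
  ∑ l ∈ Finset.Icc q K, ((if (x / 3 ^ l) % 2 = 0 then (3 : ℤ) ^ l else 0) + err q l x)

/-- W1: second differences of the jump function -/
def S_ap : Prop := ∀ K a b c : ℕ, a < b → b < c → c < 3 ^ K → a + c ≤ 2 * b + 1 → 2 * b ≤ a + c + 1 →
  ((c : ℤ) - a + 5) ≤ 4 * |F K a + F K c - 2 * F K b|

/-- W2: exponential moment of the depth -/
def S_mom : Prop := ∀ q K : ℕ, 1 ≤ q → K ≤ 3 ^ q →
  ∑ x ∈ Finset.range (3 ^ K), 2 ^ dep q K x ≤ 15 * 3 ^ K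

/-- W3: increments of the smoothed jump function -/
def S_inc : Prop := ∀ q K x : ℕ, 1 ≤ q → |G q K (x + 1) - G q K x| ≤ 3 ^ q * (dep q K x : ℤ)

/-- W4: for most `x` the error terms have second difference zero -/
def S_cnt : Prop := ∀ q K l u : ℕ, 1 ≤ q → q ≤ l → l ≤ K → 1 ≤ u →
  (((Finset.range (3 ^ K)).filter (fun x => x + 2 * u < 3 ^ K ∧
    err q l x + err q l (x + 2 * u) - 2 * err q l (x + u) ≠ 0)).card ≤ 3 * 3 ^ (K - q)) ∧
  (((Finset.range (3 ^ K)).filter (fun x => x + 2 * u < 3 ^ K ∧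
    err q l x + err q l (x + 2 * u) - 2 * err q l (x + u) ≠ 0)).card ≤ 4 * u * 3 ^ (K - l))

/-- W5: second differences of the smoothed jump function -/
def S_bad : Prop := ∀ q K u : ℕ, 1 ≤ q → q ≤ K → 8 * 3 ^ q ≤ u →
  ((Finset.range (3 ^ K)).filter (fun x => x + 2 * u < 3 ^ K ∧
    4 * |G q K x + G q K (x + 2 * u) - 2 * G q K (x + u)| < u)).card ≤ (3 * q + 15) * 3 ^ (K - q)

/-- W6: the deterministic part of the construction -/
def S_det : Prop := ∀ q K : ℕ, 1 ≤ q → q ≤ K → K ≤ 3 ^ q →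
  ∃ f : ℕ → ℝ, (∀ x, |f (x + 1) - f x| ≤ 1 / 4) ∧ ∀ u : ℕ, 8 * 3 ^ q ≤ u →
    (((Finset.range (3 ^ K)).filter (fun x => x + 2 * u < 3 ^ K ∧
      |f x + f (x + 2 * u) - 2 * f (x + u)| < (u : ℝ) / (8 * (32 * q * 3 ^ q)))).card : ℝ) ≤
      500 * q * 3 ^ (K - q)

/-- W7: second differences of the waves -/
def S_evs : Prop := ∀ (J : ℕ) (x u : ℝ), 0 < u →
  ∑ i : Fin J × Bool, |ev (x + u) i.1 i.2 + ev (x - u) i.1 i.2 - 2 * ev x i.1 i.2| ≤ 200 * u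

open Classical in
/-- W8: averaging with a constant term -/
def S_avg2 : Prop := ∀ (J M : ℕ) (Q : Finset (ℤ × ℤ)) (b : ℤ × ℤ → Fin J × Bool → ℝ)
  (c : ℤ × ℤ → ℝ) (lam : ℤ × ℤ → ℝ), 1 ≤ M → (∀ z ∈ Q, 0 < lam z ∧ ∃ i, lam z ≤ |b z i|) →
  ∃ t : Fin J × Bool → Fin M,
    ((Q.filter (fun z => |∑ i, ((t i : ℕ) : ℝ) * b z i + c z| < 2)).card : ℝ) ≤
      ∑ z ∈ Q, (4 / lam z + 1) / M

/-- W9: the final estimate -/
def S_fin : Prop := ∀ n : ℕ, 16 ≤ n → ∃ q K : ℕ, 1 ≤ q ∧ q ≤ K ∧ K ≤ 3 ^ q ∧ n < 3 ^ K ∧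
  3 ^ K ≤ 3 * n ∧ Nat.log 2 n + 1 ≤ 6 * 3 ^ q ∧
  (n : ℝ) * (1024 * q * 3 ^ q) + ∑ u ∈ Finset.Icc 1 n, (500 * q * (3 : ℝ) ^ (K - q)) *
    (204800 * q * 3 ^ q / (u : ℝ) + 1 / n) ≤
    10 ^ 10 * n * Real.log n * (Real.log (Real.log n)) ^ 2

end Pool.Agent.H188.UD
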