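import Pool.Agent.H188.UD.Defs

/-!
# W6: the deterministic part (helper878)
-/

set_option autoImplicit false

namespace Pool.Agent.H188.UD

private theorem dep_pow (q : ℕ) : ∀ d : ℕ, 8 * q + 1 ≤ d → d * 9 ^ q ≤ 2 * 2 ^ d := by
  intro d hd
  induction d, hd using Nat.le_induction with
  | base =>
    have h1 : 8 * q + 1 ≤ 9 ^ q := by
      have := one_add_mul_le_pow (a := (8 : ℤ)) (by norm_num) q
      norm_num at this
      have h2 : ((8 * q + 1 : ℕ) : ℤ) ≤ ((9 ^ q : ℕ) : ℤ) := by push_cast; linarith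
      exact_mod_cast h2
    have h3 : (9 : ℕ) ^ q * 9 ^ q ≤ 2 ^ (8 * q) := by
      rw [← mul_pow, pow_mul]
      exact Nat.pow_le_pow_left (by norm_num) q
    calc (8 * q + 1) * 9 ^ q ≤ 9 ^ q * 9 ^ q := Nat.mul_le_mul_right _ h1
      _ ≤ 2 ^ (8 * q) := h3
      _ ≤ 2 * 2 ^ (8 * q + 1) := by rw [pow_succ]; omega
  | succ d hd ih =>
    have h1 : 1 ≤ d := by omega
    calc (d + 1) * 9 ^ q ≤ (2 * d) * 9 ^ q := Nat.mul_le_mul_right _ (by omega)
      _ = 2 * (d * 9 ^ q) := by ring
      _ ≤ 2 * (2 * 2 ^ d) := Nat.mul_le_mul_left _ ih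
      _ = 2 * 2 ^ (d + 1) := by ring

private theorem clamp_le (d : ℝ) : |max (-1 / 4) (min (1 / 4) d)| ≤ 1 / 4 := by
  rw [abs_le]
  refine ⟨le_max_of_le_left (by norm_num), max_le (by norm_num) (min_le_left _ _)⟩

private theorem clamp_eq (d : ℝ) (h : |d| ≤ 1 / 4) : max (-1 / 4) (min (1 / 4) d) = d := by
  rw [abs_le] at h
  rw [min_eq_right h.2, max_eq_right (by linarith [h.1])]

private theorem clamp_sub (d : ℝ) : |max (-1 / 4) (min (1 / 4) d) - d| ≤ |d| := by
  rcases le_total (1 / 4) d with h | h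
  · rw [min_eq_left h, max_eq_right (by norm_num), abs_le, abs_of_nonneg (by linarith)]
    constructor <;> linarith
  · rw [min_eq_right h]
    rcases le_total (-1 / 4) d with h' | h'
    · rw [max_eq_right h']; simp
    · rw [max_eq_left h', abs_le, abs_of_nonpos (by linarith)]
      constructor <;> linarith

theorem t_det (h2 : S_mom) (h3 : S_inc) (h5 : S_bad) : S_det := by
  intro q K hq hqK hK
  have hq' : (1 : ℝ) ≤ q := by exact_mod_cast hq
  have h3q : (0 : ℝ) < 3 ^ q := by positivity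
  set m0 : ℝ := 1 / (32 * q * 3 ^ q) with hm0
  have hm0p : 0 < m0 := by positivity
  set g : ℕ → ℝ := fun y => ((G q K y : ℤ) : ℝ) with hg
  set d : ℕ → ℝ := fun y => m0 * (g (y + 1) - g y) with hd
  set c : ℕ → ℝ := fun y => max (-1 / 4) (min (1 / 4) (d y)) with hc
  set e : ℕ → ℝ := fun y => |c y - d y| with he
  have he0 : ∀ y, 0 ≤ e y := fun y => abs_nonneg _
  -- increments
  have hdle : ∀ y, |d y| ≤ m0 * (3 ^ q * (dep q K y : ℝ)) := by
    intro y
    rw [hd]
    simp only
    rw [abs_mul, abs_of_pos hm0p]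
    refine mul_le_mul_of_nonneg_left ?_ hm0p.le
    have := h3 q K y hq
    have h' : ((|G q K (y + 1) - G q K y| : ℤ) : ℝ) ≤ ((3 ^ q * (dep q K y : ℤ) : ℤ) : ℝ) := by exact_mod_cast this
    rw [hg]
    push_cast at h'
    exact h'
  have hee : ∀ y, e y * 9 ^ q ≤ m0 * 3 ^ q * 2 * 2 ^ dep q K y := by
    intro y
    rcases le_or_gt (dep q K y) (8 * q) with h | h
    · have h1 : |d y| ≤ 1 / 4 := by
        refine (hdle y).trans ?_
        have : (dep q K y : ℝ) ≤ 8 * q := by exact_mod_cast h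
        calc m0 * (3 ^ q * (dep q K y : ℝ)) ≤ m0 * (3 ^ q * (8 * q)) := by gcongr
          _ = 1 / 4 := by rw [hm0]; field_simp; norm_num
      have h4 : e y = 0 := by
        rw [he]; simp only; rw [hc]; simp only; rw [clamp_eq _ h1]; simp
      rw [h4, zero_mul]; positivity
    · have h1 : e y ≤ m0 * (3 ^ q * (dep q K y : ℝ)) := (clamp_sub (d y)).trans (hdle y)
      have h4 : ((dep q K y * 9 ^ q : ℕ) : ℝ) ≤ ((2 * 2 ^ dep q K y : ℕ) : ℝ) := by
        exact_mod_cast dep_pow q (dep q K y) h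
      push_cast at h4
      calc e y * 9 ^ q ≤ m0 * (3 ^ q * (dep q K y : ℝ)) * 9 ^ q := by gcongr
        _ = m0 * 3 ^ q * ((dep q K y : ℝ) * 9 ^ q) := by ring
        _ ≤ m0 * 3 ^ q * (2 * 2 ^ dep q K y) := by gcongr
        _ = _ := by ring
  set T : ℝ := ∑ y ∈ Finset.range (3 ^ K), e y with hT
  have h3K : (3 : ℝ) ^ K = 3 ^ (K - q) * 3 ^ q := by rw [← pow_add, Nat.sub_add_cancel hqK]
  have hTle : T ≤ 30 * m0 * 3 ^ (K - q) := by
    have h4 : T * 9 ^ q ≤ m0 * 3 ^ q * 2 * (15 * 3 ^ K) := by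
      rw [hT, Finset.sum_mul]
      refine (Finset.sum_le_sum fun y _ => hee y).trans ?_
      rw [← Finset.mul_sum]
      refine mul_le_mul_of_nonneg_left ?_ (by positivity)
      have := h2 q K hq hK
      exact_mod_cast this
    have h9 : (9 : ℝ) ^ q = 3 ^ q * 3 ^ q := by rw [← mul_pow]; norm_num
    rw [h9, h3K] at h4
    have h5' : T * (3 ^ q * 3 ^ q) ≤ (30 * m0 * 3 ^ (K - q)) * (3 ^ q * 3 ^ q) := by
      refine h4.trans (le_of_eq ?_)
      ring
    exact le_of_mul_le_mul_right h5' (by positivity)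
  set f : ℕ → ℝ := fun x => ∑ y ∈ Finset.range x, c y with hf
  have hfs : ∀ x, f (x + 1) - f x = c x := by
    intro x; rw [hf]; simp only; rw [Finset.sum_range_succ]; ring
  refine ⟨f, fun x => by rw [hfs]; exact clamp_le _, ?_⟩
  intro u hu
  have hu0 : 0 < u := lt_of_lt_of_le (by positivity) hu
  have hu0' : (0 : ℝ) < u := by exact_mod_cast hu0
  -- telescoping
  have tel : ∀ (x n : ℕ), |(f (x + n) - m0 * g (x + n)) - (f x - m0 * g x)| ≤
      ∑ j ∈ Finset.range n, e (x + j) := by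
    intro x n
    induction n with
    | zero => simp
    | succ n ih =>
      rw [Finset.sum_range_succ]
      have h6 : (f (x + (n + 1)) - m0 * g (x + (n + 1))) - (f x - m0 * g x) =
          ((f (x + n) - m0 * g (x + n)) - (f x - m0 * g x)) + (c (x + n) - d (x + n)) := by
        have := hfs (x + n)
        rw [← add_assoc]
        rw [hd]
        simp only
        linarith
      rw [h6]
      exact (abs_add_le _ _).trans (add_le_add ih le_rfl)
  set E : ℕ → ℝ := fun x => ∑ j ∈ Finset.range (2 * u), e (x + j) with hE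
  have key : ∀ x, |(f x + f (x + 2 * u) - 2 * f (x + u)) -
      m0 * (g x + g (x + 2 * u) - 2 * g (x + u))| ≤ E x := by
    intro x
    have t1 := tel x u
    have t2 := tel (x + u) u
    have h7 : E x = ∑ j ∈ Finset.range u, e (x + j) + ∑ j ∈ Finset.range u, e (x + u + j) := by
      rw [hE]
      simp only
      rw [two_mul, Finset.sum_range_add]
      simp only [add_assoc]
    rw [h7]
    have e3 : x + 2 * u = x + u + u := by ring
    rw [e3]
    have h8 : (f x + f (x + u + u) - 2 * f (x + u)) - m0 * (g x + g (x + u + u) - 2 * g (x + u)) =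
      ((f (x + u + u) - m0 * g (x + u + u)) - (f (x + u) - m0 * g (x + u))) -
      ((f (x + u) - m0 * g (x + u)) - (f x - m0 * g x)) := by ring
    rw [h8]
    refine (abs_sub _ _).trans ?_
    linarith
  -- the two sets
  set S := (Finset.range (3 ^ K)).filter (fun x => x + 2 * u < 3 ^ K ∧
      |f x + f (x + 2 * u) - 2 * f (x + u)| < (u : ℝ) / (8 * (32 * q * 3 ^ q))) with hS
  set B1 := (Finset.range (3 ^ K)).filter (fun x => x + 2 * u < 3 ^ K ∧
    4 * |G q K x + G q K (x + 2 * u) - 2 * G q K (x + u)| < u) with hB1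
  set B2 := (Finset.range (3 ^ K)).filter (fun x => x + 2 * u < 3 ^ K ∧ m0 * u / 8 ≤ E x) with hB2
  have hsub : S ⊆ B1 ∪ B2 := by
    intro x hx
    rw [hS, Finset.mem_filter] at hx
    obtain ⟨hx1, hx2, hx3⟩ := hx
    rw [Finset.mem_union, hB1, hB2, Finset.mem_filter, Finset.mem_filter]
    by_cases hh : 4 * |G q K x + G q K (x + 2 * u) - 2 * G q K (x + u)| < u
    · exact Or.inl ⟨hx1, hx2, hh⟩
    · refine Or.inr ⟨hx1, hx2, ?_⟩
      rw [not_lt] at hh
      have hh' : (u : ℝ) ≤ 4 * |g x + g (x + 2 * u) - 2 * g (x + u)| := by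
        have : ((u : ℤ) : ℝ) ≤ ((4 * |G q K x + G q K (x + 2 * u) - 2 * G q K (x + u)| : ℤ) : ℝ) := by
          exact_mod_cast hh
        push_cast at this
        rw [hg]
        simpa using this
      have hkx := key x
      have h9 : m0 * |g x + g (x + 2 * u) - 2 * g (x + u)| ≤
          |f x + f (x + 2 * u) - 2 * f (x + u)| + E x := by
        have hmm : m0 * |g x + g (x + 2 * u) - 2 * g (x + u)| =
            |m0 * (g x + g (x + 2 * u) - 2 * g (x + u))| := by rw [abs_mul, abs_of_pos hm0p]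
        rw [hmm]
        have := abs_sub_abs_le_abs_sub (m0 * (g x + g (x + 2 * u) - 2 * g (x + u)))
          (f x + f (x + 2 * u) - 2 * f (x + u))
        have h10 : |m0 * (g x + g (x + 2 * u) - 2 * g (x + u)) - (f x + f (x + 2 * u) - 2 * f (x + u))| ≤ E x := by
          rw [abs_sub_comm]; exact key x
        linarith
      have h11 : (u : ℝ) / (8 * (32 * q * 3 ^ q)) = m0 * u / 8 := by
        rw [hm0]; field_simp
      rw [h11] at hx3
      have h12 : m0 * u ≤ m0 * (4 * |g x + g (x + 2 * u) - 2 * g (x + u)|) :=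
        mul_le_mul_of_nonneg_left hh' hm0p.le
      nlinarith
  have hB1c : (B1.card : ℝ) ≤ (3 * q + 15) * 3 ^ (K - q) := by
    exact_mod_cast h5 q K u hq hqK hu
  have hB2c : (B2.card : ℝ) ≤ 480 * 3 ^ (K - q) := by
    have s1 : (B2.card : ℝ) * (m0 * u / 8) ≤ ∑ x ∈ B2, E x := by
      rw [← nsmul_eq_mul]
      exact Finset.card_nsmul_le_sum _ _ _ (fun x hx => (Finset.mem_filter.1 hx).2.2)
    have s2 : ∑ x ∈ B2, E x ≤ 2 * u * T := by
      rw [hE]
      simp only
      rw [Finset.sum_comm]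
      have : ∀ j ∈ Finset.range (2 * u), ∑ x ∈ B2, e (x + j) ≤ T := by
        intro j hj
        rw [Finset.mem_range] at hj
        have i1 : ∑ x ∈ B2, e (x + j) = ∑ y ∈ B2.map (addRightEmbedding j), e y := by
          rw [Finset.sum_map]; rfl
        rw [i1, hT]
        refine Finset.sum_le_sum_of_subset_of_nonneg ?_ (fun y _ _ => he0 y)
        intro y hy
        rw [Finset.mem_map] at hy
        obtain ⟨x, hx, rfl⟩ := hy
        have := (Finset.mem_filter.1 hx).2.1
        rw [Finset.mem_range]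
        show x + j < 3 ^ K
        omega
      refine (Finset.sum_le_sum this).trans ?_
      rw [Finset.sum_const, Finset.card_range, nsmul_eq_mul]
      push_cast
      exact le_rfl
    have s3 : (B2.card : ℝ) * (m0 * u / 8) ≤ (480 * 3 ^ (K - q)) * (m0 * u / 8) := by
      refine s1.trans (s2.trans ?_)
      calc 2 * (u : ℝ) * T ≤ 2 * u * (30 * m0 * 3 ^ (K - q)) := by gcongr
        _ = (480 * 3 ^ (K - q)) * (m0 * u / 8) := by ring
    exact le_of_mul_le_mul_right s3 (by positivity)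
  have hc1 : (S.card : ℝ) ≤ B1.card + B2.card := by
    exact_mod_cast (Finset.card_le_card hsub).trans (Finset.card_union_le _ _)
  have hp : (0 : ℝ) < 3 ^ (K - q) := by positivity
  calc (S.card : ℝ) ≤ B1.card + B2.card := hc1
    _ ≤ (3 * q + 15) * 3 ^ (K - q) + 480 * 3 ^ (K - q) := add_le_add hB1c hB2c
    _ = (3 * q + 495) * 3 ^ (K - q) := by ring
    _ ≤ (500 * q) * 3 ^ (K - q) := by
        refine mul_le_mul_of_nonneg_right ?_ hp.le
        linarith

end Pool.Agent.H188.UD
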