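import Pool.Agent.H188.UD.Defs

/-! W7: second differences of the waves (helper747). -/

set_option autoImplicit false

namespace Pool.Agent.H188.UD

open Pool.Agent.H188.UB (P ev)

namespace Evs

/-- the bound for one wave -/
noncomputable def mm (u : ℝ) (k : ℕ) : ℝ := min (4 * (2 : ℝ) ^ (k + 2)) (40 * u ^ 2 / (2 : ℝ) ^ (k + 2))

theorem sum_mm (u : ℝ) (hu : 0 < u) (J : ℕ) :
    ∑ k ∈ Finset.range J, mm u k ≤ 4 * (2 : ℝ) ^ (J + 2) ∧
    (u ≤ (2 : ℝ) ^ (J + 2) →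
      ∑ k ∈ Finset.range J, mm u k ≤ 88 * u - 80 * u ^ 2 / (2 : ℝ) ^ (J + 2)) := by
  induction J with
  | zero =>
    rw [Finset.sum_range_zero]
    refine ⟨by positivity, fun h => ?_⟩
    have e : (2 : ℝ) ^ (0 + 2) = 4 := by norm_num
    rw [e] at h ⊢
    rw [sub_nonneg, div_le_iff₀ (by norm_num)]
    nlinarith
  | succ J ih =>
    rw [Finset.sum_range_succ]
    have hs : 0 < (2 : ℝ) ^ (J + 2) := by positivity
    have e : (2 : ℝ) ^ (J + 1 + 2) = 2 * (2 : ℝ) ^ (J + 2) := by ring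
    have h1 : mm u J ≤ 4 * (2 : ℝ) ^ (J + 2) := min_le_left _ _
    have h2 : mm u J ≤ 40 * u ^ 2 / (2 : ℝ) ^ (J + 2) := min_le_right _ _
    obtain ⟨i1, i2⟩ := ih
    rw [e]
    refine ⟨by linarith, fun h => ?_⟩
    have e2 : 80 * u ^ 2 / (2 * (2 : ℝ) ^ (J + 2)) = 40 * u ^ 2 / (2 : ℝ) ^ (J + 2) := by
      field_simp
      ring
    rw [e2]
    by_cases hc : u ≤ (2 : ℝ) ^ (J + 2)
    · have h3 := i2 hc
      have e3 : 80 * u ^ 2 / (2 : ℝ) ^ (J + 2) = 2 * (40 * u ^ 2 / (2 : ℝ) ^ (J + 2)) := by ring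
      rw [e3] at h3
      linarith
    · have hc2 : (2 : ℝ) ^ (J + 2) < u := lt_of_not_ge hc
      have h4 : 40 * u ^ 2 / (2 : ℝ) ^ (J + 2) ≤ 80 * u := by
        rw [div_le_iff₀ hs]
        nlinarith
      linarith

theorem sum_mm_le (u : ℝ) (hu : 0 < u) (J : ℕ) : ∑ k ∈ Finset.range J, mm u k ≤ 88 * u := by
  obtain ⟨h1, h2⟩ := sum_mm u hu J
  by_cases hc : u ≤ (2 : ℝ) ^ (J + 2)
  · have h3 := h2 hc
    have h4 : 0 ≤ 80 * u ^ 2 / (2 : ℝ) ^ (J + 2) := by positivity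
    linarith
  · have hc2 : (2 : ℝ) ^ (J + 2) < u := lt_of_not_ge hc
    linarith

theorem one_sub_cos (B : ℝ) : 0 ≤ 1 - Real.cos B ∧ 1 - Real.cos B ≤ 2 ∧
    1 - Real.cos B ≤ B ^ 2 / 2 := by
  refine ⟨by linarith [Real.cos_le_one B], by linarith [Real.neg_one_le_cos B], ?_⟩
  linarith [Real.one_sub_sq_div_two_le_cos (x := B)]

theorem pi_sq : Real.pi ^ 2 ≤ 10 := by
  have h1 := Real.pi_lt_d2
  have h0 := Real.pi_pos
  nlinarith

theorem term (x u : ℝ) (k : ℕ) (c : Bool) :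
    |ev (x + u) k c + ev (x - u) k c - 2 * ev x k c| ≤ mm u k := by
  have hs : 0 < (2 : ℝ) ^ (k + 2) := by positivity
  obtain ⟨s, hsd⟩ : ∃ s : ℝ, s = (2 : ℝ) ^ (k + 2) := ⟨_, rfl⟩
  rw [← hsd] at hs
  have key : ∃ t : ℝ, |t| ≤ 1 ∧ ev (x + u) k c + ev (x - u) k c - 2 * ev x k c =
      -(s * (2 * t * (1 - Real.cos (2 * Real.pi * u / s)))) := by
    have e1 : 2 * Real.pi * (x + u) / s = 2 * Real.pi * x / s + 2 * Real.pi * u / s := by ring
    have e2 : 2 * Real.pi * (x - u) / s = 2 * Real.pi * x / s - 2 * Real.pi * u / s := by ring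
    cases c
    · refine ⟨Real.sin (2 * Real.pi * x / s), Real.abs_sin_le_one _, ?_⟩
      unfold ev
      simp only [Bool.false_eq_true, if_false, ← hsd]
      rw [e1, e2, Real.sin_add, Real.sin_sub]
      ring
    · refine ⟨Real.cos (2 * Real.pi * x / s), Real.abs_cos_le_one _, ?_⟩
      unfold ev
      simp only [if_true, ← hsd]
      rw [e1, e2, Real.cos_add, Real.cos_sub]
      ring
  obtain ⟨t, ht, he⟩ := key
  obtain ⟨h1, h2, h3⟩ := one_sub_cos (2 * Real.pi * u / s)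
  have h4 : |ev (x + u) k c + ev (x - u) k c - 2 * ev x k c| ≤
      2 * s * (1 - Real.cos (2 * Real.pi * u / s)) := by
    rw [he, abs_neg, abs_mul, abs_mul, abs_mul, abs_of_pos hs, abs_of_nonneg h1]
    have h5 : |(2 : ℝ)| = 2 := abs_of_pos (by norm_num)
    rw [h5]
    have h6 : 0 ≤ s * (1 - Real.cos (2 * Real.pi * u / s)) := mul_nonneg hs.le h1
    nlinarith
  unfold mm
  rw [← hsd]
  refine h4.trans (le_min ?_ ?_)
  · nlinarith
  · rw [le_div_iff₀ hs]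
    have h5 : s * (2 * Real.pi * u / s) = 2 * Real.pi * u := by
      field_simp
    have h6 : 2 * s * (1 - Real.cos (2 * Real.pi * u / s)) * s ≤
        2 * s * ((2 * Real.pi * u / s) ^ 2 / 2) * s := by
      have : 0 ≤ s * s := by positivity
      nlinarith
    have h7 : 2 * s * ((2 * Real.pi * u / s) ^ 2 / 2) * s = (2 * Real.pi * u) ^ 2 := by
      rw [← h5]
      field_simp
    rw [h7] at h6
    have h8 : (2 * Real.pi * u) ^ 2 = 4 * Real.pi ^ 2 * u ^ 2 := by ring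
    rw [h8] at h6
    have h9 := mul_le_mul_of_nonneg_right pi_sq (sq_nonneg u)
    linarith

end Evs

open Evs in
theorem t_evs : S_evs := by
  intro J x u hu
  have h1 : ∑ i : Fin J × Bool, |ev (x + u) i.1 i.2 + ev (x - u) i.1 i.2 - 2 * ev x i.1 i.2| ≤
      ∑ i : Fin J × Bool, mm u (i.1 : ℕ) := Finset.sum_le_sum fun i _ => term x u i.1 i.2
  have h2 : ∑ i : Fin J × Bool, mm u (i.1 : ℕ) = 2 * ∑ k ∈ Finset.range J, mm u k := by
    rw [Fintype.sum_prod_type, Finset.mul_sum, ← Fin.sum_univ_eq_sum_range (fun k => 2 * mm u k) J]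
    refine Finset.sum_congr rfl fun k _ => ?_
    rw [Fintype.sum_bool]
    ring
  have h3 := sum_mm_le u hu J
  rw [h2] at h1
  linarith

end Pool.Agent.H188.UD
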