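import Pool.Agent.H188.UD.Defs

set_option autoImplicit false

namespace Pool.Agent.H188.UD

private theorem fin_log3 : 1.097 ≤ Real.log 3 := by
  have h1 : Real.log ((2 : ℝ) ^ 19) ≤ Real.log ((3 : ℝ) ^ 12) :=
    Real.log_le_log (by norm_num) (by norm_num)
  rw [Real.log_pow, Real.log_pow] at h1
  have h2 := Real.log_two_gt_d9
  push_cast at h1
  linarith

private theorem fin_harm (n : ℕ) : ∑ u ∈ Finset.Icc 1 n, 1 / (u : ℝ) ≤ 1 + Real.log n := by
  have h := harmonic_le_one_add_log n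
  rw [harmonic_eq_sum_Icc] at h
  push_cast at h
  refine le_trans (le_of_eq ?_) h
  refine Finset.sum_congr rfl fun k _ => ?_
  rw [one_div]

private theorem fin_sum (n : ℕ) (hn : 0 < n) (a b : ℝ) :
    ∑ u ∈ Finset.Icc 1 n, a * (b / (u : ℝ) + 1 / n) =
      a * (b * ∑ u ∈ Finset.Icc 1 n, 1 / (u : ℝ) + 1) := by
  have hn0 : (n : ℝ) ≠ 0 := by exact_mod_cast hn.ne'
  rw [← Finset.mul_sum, Finset.sum_add_distrib, Finset.sum_const, Nat.card_Icc, Nat.add_sub_cancel,
    nsmul_eq_mul, mul_one_div_cancel hn0, Finset.mul_sum]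
  congr 2
  refine Finset.sum_congr rfl fun k _ => ?_
  ring

private theorem fin_est (N L LL q T R H : ℝ) (hN : 0 ≤ N) (hL : 2.772 ≤ L) (hLL : 1 ≤ LL)
    (hq0 : 0 ≤ q) (hq : q ≤ 2.2 * LL) (hT0 : 0 ≤ T) (hT : T ≤ 3.9 * L) (hR0 : 0 ≤ R)
    (hRT : R * T ≤ 3 * N) (hR : R ≤ 3 * N) (hH0 : 0 ≤ H) (hH : H ≤ 1 + L) :
    N * (1024 * q * T) + (500 * q * R) * (204800 * q * T * H + 1) ≤
      10 ^ 10 * N * L * LL ^ 2 := by
  have hL0 : 0 ≤ L := by linarith
  have hL1 : 1 ≤ L := by linarith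
  have hLL0 : 0 ≤ LL := by linarith
  have hLL2 : LL ≤ LL ^ 2 := by nlinarith
  have hNL : 0 ≤ N * L := mul_nonneg hN hL0
  -- first term
  have a1 : q * T ≤ (2.2 * LL) * (3.9 * L) := mul_le_mul hq hT hT0 (by positivity)
  have a2 : N * (q * T) ≤ N * ((2.2 * LL) * (3.9 * L)) := mul_le_mul_of_nonneg_left a1 hN
  have a3 : (N * L) * LL ≤ (N * L) * LL ^ 2 := mul_le_mul_of_nonneg_left hLL2 hNL
  have a4 : N * (1024 * q * T) ≤ 9000 * (N * L * LL ^ 2) := by nlinarith
  -- second term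
  have b1 : q * q ≤ (2.2 * LL) * (2.2 * LL) := mul_le_mul hq hq hq0 (by positivity)
  have b2 : H ≤ 1.4 * L := by linarith
  have b3 : (R * T) * H ≤ (3 * N) * (1.4 * L) := mul_le_mul hRT b2 hH0 (by positivity)
  have b4 : (q * q) * ((R * T) * H) ≤ ((2.2 * LL) * (2.2 * LL)) * ((3 * N) * (1.4 * L)) :=
    mul_le_mul b1 b3 (by positivity) (by positivity)
  have b5 : (500 * q * R) * (204800 * q * T * H) ≤ 2100000000 * (N * L * LL ^ 2) := by
    nlinarith
  -- third term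
  have c1 : q * R ≤ (2.2 * LL) * (3 * N) := mul_le_mul hq hR hR0 (by positivity)
  have c2 : N * LL ≤ N * L * LL ^ 2 := by
    have h1 : N * 1 ≤ N * L := mul_le_mul_of_nonneg_left hL1 hN
    have h2 : N * LL ≤ (N * L) * LL := mul_le_mul_of_nonneg_right (by linarith) hLL0
    linarith
  have c3 : 500 * q * R ≤ 3300 * (N * L * LL ^ 2) := by nlinarith
  have d : 0 ≤ N * L * LL ^ 2 := by positivity
  have e1 : (500 * q * R) * (204800 * q * T * H + 1) =
      (500 * q * R) * (204800 * q * T * H) + 500 * q * R := by ring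
  rw [e1]
  have e2 : (10 : ℝ) ^ 10 * N * L * LL ^ 2 = 10000000000 * (N * L * LL ^ 2) := by ring
  rw [e2]
  linarith

theorem t_fin : S_fin := by
  intro n hn
  have hn0 : 0 < n := by omega
  obtain ⟨m, hm⟩ : ∃ m : ℕ, m = Nat.log 3 n := ⟨_, rfl⟩
  have hm1 : 3 ^ m ≤ n := by rw [hm]; exact Nat.pow_log_le_self 3 hn0.ne'
  have hm2 : n < 3 ^ (m + 1) := by rw [hm]; exact Nat.lt_pow_succ_log_self (by norm_num) n
  have hm3 : 2 ≤ m := by
    by_contra h
    have h1 : m + 1 ≤ 2 := by omega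
    have h2 : 3 ^ (m + 1) ≤ 3 ^ 2 := Nat.pow_le_pow_right (by norm_num) h1
    omega
  obtain ⟨K, hK⟩ : ∃ K : ℕ, K = m + 1 := ⟨_, rfl⟩
  obtain ⟨q, hq⟩ : ∃ q : ℕ, q = Nat.clog 3 K := ⟨_, rfl⟩
  have hq1 : K ≤ 3 ^ q := by rw [hq]; exact Nat.le_pow_clog (by norm_num) K
  have hq2 : 1 ≤ q := by
    by_contra h
    have h1 : q = 0 := by omega
    rw [h1] at hq1
    omega
  have hq3 : 3 ^ (q - 1) < K := by
    rw [hq]
    exact Nat.pow_pred_clog_lt_self (by norm_num) (by omega)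
  have hq4 : 3 ^ q < 3 * K := by
    have h1 : 3 ^ q = 3 * 3 ^ (q - 1) := by
      rw [← pow_succ']
      congr 1
      omega
    omega
  have hqK : q ≤ K := by
    have h1 : q - 1 < 3 ^ (q - 1) := Nat.lt_pow_self (by norm_num)
    omega
  have hK3 : 3 ^ K ≤ 3 * n := by
    rw [hK, pow_succ]
    omega
  have hnK : n < 3 ^ K := by rw [hK]; exact hm2
  refine ⟨q, K, hq2, hqK, hq1, hnK, hK3, ?_, ?_⟩
  · have h1 : n < 2 ^ (2 * K) := by
      rw [pow_mul]
      exact hnK.trans_le (Nat.pow_le_pow_left (by norm_num) K)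
    have h2 : Nat.log 2 n < 2 * K := Nat.log_lt_of_lt_pow hn0.ne' h1
    omega
  · have hl3 := fin_log3
    have hl2 := Real.log_two_gt_d9
    have hl2' := Real.log_two_lt_d9
    have hN0 : (0 : ℝ) < n := by exact_mod_cast hn0
    obtain ⟨L, hL⟩ : ∃ L : ℝ, L = Real.log n := ⟨_, rfl⟩
    have hL1 : 2.772 ≤ L := by
      have h1 : Real.log ((2 : ℝ) ^ 4) ≤ Real.log n := by
        refine Real.log_le_log (by norm_num) ?_
        have : (16 : ℝ) ≤ n := by exact_mod_cast hn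
        linarith
      rw [Real.log_pow] at h1
      push_cast at h1
      rw [hL]
      linarith
    have hL0 : 0 < L := by linarith
    obtain ⟨LL, hLL⟩ : ∃ LL : ℝ, LL = Real.log L := ⟨_, rfl⟩
    have hLL1 : 1 ≤ LL := by
      rw [hLL, Real.le_log_iff_exp_le hL0]
      have := Real.exp_one_lt_d9
      linarith
    have hmL : (m : ℝ) * Real.log 3 ≤ L := by
      have h1 : Real.log ((3 : ℝ) ^ m) ≤ Real.log n :=
        Real.log_le_log (by positivity) (by exact_mod_cast hm1)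
      rw [Real.log_pow] at h1
      rw [hL]
      exact h1
    have hKL : (K : ℝ) ≤ 1.3 * L := by
      have h1 : (m : ℝ) * 1.097 ≤ (m : ℝ) * Real.log 3 :=
        mul_le_mul_of_nonneg_left hl3 (Nat.cast_nonneg m)
      rw [hK]
      push_cast
      linarith
    have hT : (3 : ℝ) ^ q ≤ 3.9 * L := by
      have h1 : (3 : ℝ) ^ q ≤ 3 * K := by exact_mod_cast hq4.le
      linarith
    have hqL : (q : ℝ) ≤ 2.2 * LL := by
      have h1 : Real.log ((3 : ℝ) ^ q) ≤ Real.log (4 * L) :=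
        Real.log_le_log (by positivity) (by linarith)
      rw [Real.log_pow, Real.log_mul (by norm_num) hL0.ne', ← hLL] at h1
      have h2 : Real.log 4 = 2 * Real.log 2 := by
        rw [show (4 : ℝ) = 2 ^ 2 by norm_num, Real.log_pow]
        push_cast
        ring
      have h3 : (q : ℝ) * 1.097 ≤ (q : ℝ) * Real.log 3 :=
        mul_le_mul_of_nonneg_left hl3 (Nat.cast_nonneg q)
      linarith
    have hRT : (3 : ℝ) ^ (K - q) * 3 ^ q ≤ 3 * n := by
      rw [← pow_add, Nat.sub_add_cancel hqK]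
      exact_mod_cast hK3
    have hR : (3 : ℝ) ^ (K - q) ≤ 3 * n := by
      have h1 : (3 : ℝ) ^ (K - q) ≤ 3 ^ K := pow_le_pow_right₀ (by norm_num) (Nat.sub_le _ _)
      have h2 : (3 : ℝ) ^ K ≤ 3 * n := by exact_mod_cast hK3
      linarith
    rw [fin_sum n hn0, ← hL, ← hLL]
    have hH := fin_harm n
    rw [← hL] at hH
    exact fin_est n L LL q (3 ^ q) (3 ^ (K - q)) _ hN0.le hL1 hLL1 (Nat.cast_nonneg q) hqL
      (by positivity) hT (by positivity) hRT hR (Finset.sum_nonneg fun u _ => by positivity) hH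

end Pool.Agent.H188.UD
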