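import Pool.Agent.H188.UD.Defs

set_option autoImplicit false

namespace Pool.Agent.H188.UD

theorem inc_aux (L P Q x : ℕ) (hPQ : Q * P = L) (hP : 0 < P) (hPL : P < L) :
    |((if ((x + 1) / L) % 2 = 0 then (L : ℤ) else 0) +
        (if (x + 1) % L < P then
          (if ((x + 1) / L) % 2 = 0 then (Q : ℤ) * (((x + 1) % L : ℕ) : ℤ) - L
            else L - (Q : ℤ) * (((x + 1) % L : ℕ) : ℤ)) else 0)) -
      ((if (x / L) % 2 = 0 then (L : ℤ) else 0) +
        (if x % L < P then
          (if (x / L) % 2 = 0 then (Q : ℤ) * ((x % L : ℕ) : ℤ) - L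
            else L - (Q : ℤ) * ((x % L : ℕ) : ℤ)) else 0))| ≤
      if x % L < P then (Q : ℤ) else 0 := by
  have hL : 0 < L := by omega
  have hm : x % L < L := Nat.mod_lt _ hL
  have hx : L * (x / L) + x % L = x := Nat.div_add_mod x L
  have hQ0 : (0 : ℤ) ≤ (Q : ℤ) := Int.natCast_nonneg Q
  have hz : (Q : ℤ) * (P : ℤ) = (L : ℤ) := by exact_mod_cast hPQ
  generalize hk : x / L = k at *
  generalize hmm : x % L = m at *
  rcases Nat.lt_or_ge (m + 1) L with h | h
  · obtain ⟨h1, h2⟩ := (Nat.div_mod_unique (a := x + 1) (d := k) (c := m + 1) hL).2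
      ⟨by omega, h⟩
    rw [h1, h2]
    rcases lt_trichotomy (m + 1) P with h3 | h3 | h3
    · have h4 : m < P := by omega
      rw [if_pos h3, if_pos h4, if_pos h4]
      rcases Nat.mod_two_eq_zero_or_one k with h5 | h5
      · rw [if_pos h5, if_pos h5, if_pos h5]
        rw [abs_le]
        constructor <;> push_cast <;> linarith
      · have h6 : ¬ (k % 2 = 0) := by omega
        rw [if_neg h6, if_neg h6, if_neg h6]
        rw [abs_le]
        constructor <;> push_cast <;> linarith
    · have h4 : m < P := by omega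
      have h7 : ¬ (m + 1 < P) := by omega
      have h8 : (P : ℤ) = (m : ℤ) + 1 := by rw [← h3]; push_cast; rfl
      rw [h8] at hz
      rw [if_neg h7, if_pos h4, if_pos h4]
      rcases Nat.mod_two_eq_zero_or_one k with h5 | h5
      · rw [if_pos h5, if_pos h5]
        rw [abs_le]
        constructor <;> linarith
      · have h6 : ¬ (k % 2 = 0) := by omega
        rw [if_neg h6, if_neg h6]
        rw [abs_le]
        constructor <;> linarith
    · have h4 : ¬ (m < P) := by omega
      have h7 : ¬ (m + 1 < P) := by omega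
      rw [if_neg h7, if_neg h4, if_neg h4]
      simp
  · have h9 : m + 1 = L := by omega
    obtain ⟨h1, h2⟩ := (Nat.div_mod_unique (a := x + 1) (d := k + 1) (c := 0) hL).2
      ⟨by rw [Nat.mul_add]; omega, hL⟩
    rw [h1, h2]
    have h4 : ¬ (m < P) := by omega
    rw [if_neg h4, if_neg h4, if_pos hP]
    rcases Nat.mod_two_eq_zero_or_one k with h5 | h5
    · have h6 : ¬ ((k + 1) % 2 = 0) := by omega
      rw [if_pos h5, if_neg h6, if_neg h6]
      simp
    · have h6 : ¬ (k % 2 = 0) := by omega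
      have h6' : (k + 1) % 2 = 0 := by omega
      rw [if_neg h6, if_pos h6', if_pos h6']
      simp

theorem inc_step (q l x : ℕ) (hq : 1 ≤ q) (hl : q ≤ l) :
    |((if ((x + 1) / 3 ^ l) % 2 = 0 then (3 : ℤ) ^ l else 0) + err q l (x + 1)) -
      ((if (x / 3 ^ l) % 2 = 0 then (3 : ℤ) ^ l else 0) + err q l x)| ≤
      if x % 3 ^ l < 3 ^ (l - q) then (3 : ℤ) ^ q else 0 := by
  have hPQ : 3 ^ q * 3 ^ (l - q) = 3 ^ l := by rw [← pow_add]; congr 1; omega
  have hPpos : 0 < 3 ^ (l - q) := by positivity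
  have hPL : 3 ^ (l - q) < 3 ^ l := Nat.pow_lt_pow_right (by norm_num) (by omega)
  have h := inc_aux (3 ^ l) (3 ^ (l - q)) (3 ^ q) x hPQ hPpos hPL
  unfold err
  push_cast at h ⊢
  exact h

theorem t_inc : S_inc := by
  intro q K x hq
  unfold G dep
  rw [← Finset.sum_sub_distrib]
  refine (Finset.abs_sum_le_sum_abs _ _).trans ?_
  refine (Finset.sum_le_sum (fun l hl => inc_step q l x hq (Finset.mem_Icc.1 hl).1)).trans ?_
  rw [← Finset.sum_filter, Finset.sum_const, nsmul_eq_mul, mul_comm]

end Pool.Agent.H188.UD
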