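import Pool.Agent.H188.UD.Defs

set_option autoImplicit false

namespace Pool.Agent.H188.UD

namespace MomAux

theorem dep_le (q K y r : ℕ) (hr : r < 3) :
    dep q (K + 1) (3 * y + r) ≤ dep q K y + (if (3 * y + r) % 3 ^ q = 0 then 1 else 0) := by
  unfold dep
  have hsub : (Finset.Icc q (K + 1)).filter (fun l => (3 * y + r) % 3 ^ l < 3 ^ (l - q)) ⊆
      (((Finset.Icc q K).filter (fun l => y % 3 ^ l < 3 ^ (l - q))).image (fun l => l + 1)) ∪
        (if (3 * y + r) % 3 ^ q = 0 then {q} else ∅) := by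
    intro l hl
    rw [Finset.mem_filter, Finset.mem_Icc] at hl
    obtain ⟨⟨h1, h2⟩, h3⟩ := hl
    rw [Finset.mem_union]
    rcases Nat.eq_or_lt_of_le h1 with h | h
    · right
      subst h
      have h4 : (3 * y + r) % 3 ^ q = 0 := by
        rw [Nat.sub_self, pow_zero] at h3
        omega
      rw [if_pos h4]
      exact Finset.mem_singleton_self _
    · left
      rw [Finset.mem_image]
      obtain ⟨m, rfl⟩ : ∃ m, l = m + 1 := ⟨l - 1, by omega⟩
      refine ⟨m, ?_, rfl⟩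
      rw [Finset.mem_filter, Finset.mem_Icc]
      refine ⟨⟨by omega, by omega⟩, ?_⟩
      have h5 : m + 1 - q = (m - q) + 1 := by omega
      rw [h5, pow_succ, pow_succ] at h3
      have h6 : (3 * y + r) % (3 ^ m * 3) = 3 * (y % 3 ^ m) + r := by
        have hd := Nat.div_add_mod y (3 ^ m)
        have hl : y % 3 ^ m < 3 ^ m := Nat.mod_lt _ (by positivity)
        have he : 3 * y + r = (3 * (y % 3 ^ m) + r) + (3 ^ m * 3) * (y / 3 ^ m) := by
          calc 3 * y + r = 3 * (3 ^ m * (y / 3 ^ m) + y % 3 ^ m) + r := by rw [hd]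
            _ = _ := by ring
        rw [he, Nat.add_mul_mod_self_left]
        exact Nat.mod_eq_of_lt (by omega)
      rw [h6] at h3
      omega
  refine (Finset.card_le_card hsub).trans ?_
  refine (Finset.card_union_le _ _).trans ?_
  have h7 := Finset.card_image_le (s := (Finset.Icc q K).filter (fun l => y % 3 ^ l < 3 ^ (l - q)))
    (f := fun l => l + 1)
  split_ifs
  · rw [Finset.card_singleton]; omega
  · rw [Finset.card_empty]; omega

theorem sum_three (g : ℕ → ℕ) (n : ℕ) :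
    ∑ x ∈ Finset.range (3 * n), g x =
      ∑ y ∈ Finset.range n, (g (3 * y) + g (3 * y + 1) + g (3 * y + 2)) := by
  induction n with
  | zero => simp
  | succ n ih =>
    rw [show 3 * (n + 1) = 3 * n + 1 + 1 + 1 by ring, Finset.sum_range_succ, Finset.sum_range_succ,
      Finset.sum_range_succ, Finset.sum_range_succ _ n, ih]
    ring

/-- the potential -/
def W (q K : ℕ) : ℕ :=
  ∑ x ∈ Finset.range (3 ^ K), 2 ^ dep q K x * (3 ^ (q - 1) + Nat.gcd x (3 ^ (q - 1)))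

theorem W_step (q K : ℕ) (hq : 1 ≤ q) :
    3 ^ (q - 1) * W q (K + 1) ≤ (3 * 3 ^ (q - 1) + 2) * W q K := by
  have hQ : 3 ^ q = 3 * 3 ^ (q - 1) := by
    obtain ⟨p, rfl⟩ : ∃ p, q = p + 1 := ⟨q - 1, by omega⟩
    rw [Nat.add_sub_cancel, pow_succ, mul_comm]
  unfold W
  rw [show 3 ^ (K + 1) = 3 * 3 ^ K by rw [pow_succ, mul_comm], sum_three, Finset.mul_sum,
    Finset.mul_sum]
  refine Finset.sum_le_sum fun y _ => ?_
  have hQ1 : 1 ≤ 3 ^ (q - 1) := Nat.one_le_pow _ _ (by norm_num)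
  have d0 := dep_le q K y 0 (by norm_num)
  have d1 := dep_le q K y 1 (by norm_num)
  have d2 := dep_le q K y 2 (by norm_num)
  have n1 : ¬ (3 * y + 1) % 3 ^ q = 0 := by
    intro h
    have h1 : 3 ^ q ∣ 3 * y + 1 := Nat.dvd_of_mod_eq_zero h
    have h2 : 3 ∣ 3 * y + 1 := (Dvd.intro _ hQ.symm).trans h1
    omega
  have n2 : ¬ (3 * y + 2) % 3 ^ q = 0 := by
    intro h
    have h1 : 3 ^ q ∣ 3 * y + 2 := Nat.dvd_of_mod_eq_zero h
    have h2 : 3 ∣ 3 * y + 2 := (Dvd.intro _ hQ.symm).trans h1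
    omega
  rw [if_neg n1, add_zero] at d1
  rw [if_neg n2, add_zero] at d2
  have g1 : Nat.gcd (3 * y + 1) (3 ^ (q - 1)) = 1 := by
    apply Nat.Coprime.pow_right
    rw [Nat.coprime_comm, Nat.Prime.coprime_iff_not_dvd Nat.prime_three]
    omega
  have g2 : Nat.gcd (3 * y + 2) (3 ^ (q - 1)) = 1 := by
    apply Nat.Coprime.pow_right
    rw [Nat.coprime_comm, Nat.Prime.coprime_iff_not_dvd Nat.prime_three]
    omega
  rw [g1, g2]
  have p1 : 2 ^ dep q (K + 1) (3 * y + 1) ≤ 2 ^ dep q K y := Nat.pow_le_pow_right (by norm_num) d1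
  have p2 : 2 ^ dep q (K + 1) (3 * y + 2) ≤ 2 ^ dep q K y := Nat.pow_le_pow_right (by norm_num) d2
  rw [add_zero] at d0
  have p0 := Nat.pow_le_pow_right (n := 2) (by norm_num) d0
  have t1 := Nat.mul_le_mul_right (3 ^ (q - 1) + 1) p1
  have t2 := Nat.mul_le_mul_right (3 ^ (q - 1) + 1) p2
  by_cases hy : 3 ^ (q - 1) ∣ y
  · have hg : Nat.gcd y (3 ^ (q - 1)) = 3 ^ (q - 1) := Nat.gcd_eq_right hy
    have hg3 : Nat.gcd (3 * y) (3 ^ (q - 1)) = 3 ^ (q - 1) :=
      Nat.gcd_eq_right (hy.mul_left 3)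
    have p0' : 2 ^ dep q (K + 1) (3 * y) ≤ 2 ^ dep q K y * 2 := by
      refine p0.trans ?_
      rw [← pow_succ]
      apply Nat.pow_le_pow_right (by norm_num)
      split_ifs <;> omega
    rw [hg, hg3]
    generalize 3 ^ (q - 1) = Q at *
    generalize 2 ^ dep q (K + 1) (3 * y) = A at *
    generalize 2 ^ dep q (K + 1) (3 * y + 1) = B at *
    generalize 2 ^ dep q (K + 1) (3 * y + 2) = C at *
    generalize 2 ^ dep q K y = D at *
    have t0 := Nat.mul_le_mul_right (Q + Q) p0'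
    have t : A * (Q + Q) + B * (Q + 1) + C * (Q + 1) ≤ D * 2 * (Q + Q) + D * (Q + 1) + D * (Q + 1) := by
      omega
    refine (Nat.mul_le_mul_left Q t).trans ?_
    nlinarith [Nat.zero_le (D * Q)]
  · have n0 : ¬ (3 * y) % 3 ^ q = 0 := by
      intro h
      have h1 : 3 ^ q ∣ 3 * y := Nat.dvd_of_mod_eq_zero h
      rw [hQ] at h1
      exact hy (Nat.dvd_of_mul_dvd_mul_left (by norm_num) h1)
    rw [if_neg n0, add_zero] at p0
    have hg3 : Nat.gcd (3 * y) (3 ^ (q - 1)) ≤ 3 * Nat.gcd y (3 ^ (q - 1)) := by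
      apply Nat.le_of_dvd
      · have := Nat.gcd_pos_of_pos_right y (n := 3 ^ (q - 1)) (by positivity)
        omega
      · rw [← Nat.gcd_mul_left]
        exact Nat.dvd_gcd (Nat.gcd_dvd_left _ _) ((Nat.gcd_dvd_right _ _).mul_left 3)
    generalize Nat.gcd (3 * y) (3 ^ (q - 1)) = g3 at *
    generalize Nat.gcd y (3 ^ (q - 1)) = g at *
    generalize 3 ^ (q - 1) = Q at *
    generalize 2 ^ dep q (K + 1) (3 * y) = A at *
    generalize 2 ^ dep q (K + 1) (3 * y + 1) = B at *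
    generalize 2 ^ dep q (K + 1) (3 * y + 2) = C at *
    generalize 2 ^ dep q K y = D at *
    have t0 : A * (Q + g3) ≤ D * (Q + 3 * g) := Nat.mul_le_mul p0 (by omega)
    have t : A * (Q + g3) + B * (Q + 1) + C * (Q + 1) ≤
        D * (Q + 3 * g) + D * (Q + 1) + D * (Q + 1) := by
      omega
    refine (Nat.mul_le_mul_left Q t).trans ?_
    nlinarith [Nat.zero_le (D * g)]

theorem W_bound (q K : ℕ) (hq : 1 ≤ q) :
    (3 ^ (q - 1)) ^ K * W q K ≤ (3 * 3 ^ (q - 1) + 2) ^ K * (2 * 3 ^ (q - 1)) := by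
  induction K with
  | zero =>
    unfold W dep
    rw [Finset.Icc_eq_empty (by omega)]
    simp [two_mul]
  | succ K ih =>
    have h := W_step q K hq
    calc (3 ^ (q - 1)) ^ (K + 1) * W q (K + 1)
        = (3 ^ (q - 1)) ^ K * (3 ^ (q - 1) * W q (K + 1)) := by rw [pow_succ]; ring
      _ ≤ (3 ^ (q - 1)) ^ K * ((3 * 3 ^ (q - 1) + 2) * W q K) := Nat.mul_le_mul_left _ h
      _ = (3 * 3 ^ (q - 1) + 2) * ((3 ^ (q - 1)) ^ K * W q K) := by ring
      _ ≤ (3 * 3 ^ (q - 1) + 2) * ((3 * 3 ^ (q - 1) + 2) ^ K * (2 * 3 ^ (q - 1))) :=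
        Nat.mul_le_mul_left _ ih
      _ = _ := by rw [pow_succ (3 * 3 ^ (q - 1) + 2)]; ring

end MomAux

open MomAux

theorem t_mom : S_mom := by
  intro q K hq hK
  have hQ : (3 : ℝ) ^ q = 3 * 3 ^ (q - 1) := by
    obtain ⟨p, rfl⟩ : ∃ p, q = p + 1 := ⟨q - 1, by omega⟩
    rw [Nat.add_sub_cancel, pow_succ, mul_comm]
  have hW := W_bound q K hq
  have h1 : (∑ x ∈ Finset.range (3 ^ K), 2 ^ dep q K x) * 3 ^ (q - 1) ≤ W q K := by
    unfold W
    rw [Finset.sum_mul]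
    exact Finset.sum_le_sum fun x _ => Nat.mul_le_mul_left _ (Nat.le_add_right _ _)
  set S := ∑ x ∈ Finset.range (3 ^ K), 2 ^ dep q K x with hS
  have h2 : (3 ^ (q - 1)) ^ K * (S * 3 ^ (q - 1)) ≤ (3 * 3 ^ (q - 1) + 2) ^ K * (2 * 3 ^ (q - 1)) :=
    (Nat.mul_le_mul_left _ h1).trans hW
  have h3 : ((3 : ℝ) ^ (q - 1)) ^ K * (S * 3 ^ (q - 1)) ≤
      (3 * 3 ^ (q - 1) + 2) ^ K * (2 * 3 ^ (q - 1)) := by exact_mod_cast h2
  have hQ0 : (0 : ℝ) < 3 ^ (q - 1) := by positivity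
  have hK' : (K : ℝ) ≤ 3 * 3 ^ (q - 1) := by rw [← hQ]; exact_mod_cast hK
  generalize (3 : ℝ) ^ (q - 1) = Q at *
  have h4 : Q ^ K * (S : ℝ) ≤ (3 * Q + 2) ^ K * 2 := by
    have : (Q ^ K * (S : ℝ)) * Q ≤ ((3 * Q + 2) ^ K * 2) * Q := by linarith
    exact le_of_mul_le_mul_right this hQ0
  have h5 : (3 * Q + 2) ^ K ≤ (3 * Q) ^ K * Real.exp 2 := by
    have h6 : 3 * Q + 2 = (3 * Q) * (2 / (3 * Q) + 1) := by
      field_simp
      ring
    rw [h6, mul_pow]
    apply mul_le_mul_of_nonneg_left _ (by positivity)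
    calc (2 / (3 * Q) + 1) ^ K ≤ (Real.exp (2 / (3 * Q))) ^ K :=
          pow_le_pow_left₀ (by positivity) (Real.add_one_le_exp _) K
      _ = Real.exp (K * (2 / (3 * Q))) := by rw [← Real.exp_nat_mul]
      _ ≤ Real.exp 2 := by
        apply Real.exp_le_exp.2
        rw [mul_div_assoc', div_le_iff₀ (by positivity)]
        nlinarith
  have h7 : Real.exp 2 ≤ 7.5 := by
    have h8 : Real.exp 2 = Real.exp 1 * Real.exp 1 := by rw [← Real.exp_add]; norm_num
    have h9 := Real.exp_one_lt_d9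
    have h10 := Real.exp_pos 1
    rw [h8]
    nlinarith
  have h11 : Q ^ K * (S : ℝ) ≤ Q ^ K * (15 * 3 ^ K) := by
    calc Q ^ K * (S : ℝ) ≤ (3 * Q + 2) ^ K * 2 := h4
      _ ≤ ((3 * Q) ^ K * Real.exp 2) * 2 := by linarith
      _ ≤ ((3 * Q) ^ K * 7.5) * 2 := by
        have : (0 : ℝ) < (3 * Q) ^ K := by positivity
        nlinarith
      _ = Q ^ K * (15 * 3 ^ K) := by rw [mul_pow]; ring
  have h12 : (S : ℝ) ≤ 15 * 3 ^ K := le_of_mul_le_mul_left h11 (by positivity)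
  exact_mod_cast h12

end Pool.Agent.H188.UD
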